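import Pool.Agent.Lib_helper84.Cub.WFT
import Pool.Agent.Lib_helper26.Ex.Noether

/-!
The example ring is F-finite.
-/

namespace Pool.Agent.Lib_helper77.FB

open Pool.Agent.WFT Pool.Agent.Ex26

theorem finite_of_family {A B ι : Type*} [CommRing A] [CommRing B] [Fintype ι] (f : A →+* B)
    (b : ι → B) (h : ∀ z, ∃ c : ι → A, z = ∑ i, f (c i) * b i) : f.Finite := by
  classical
  let _ : Algebra A B := f.toAlgebra
  change Module.Finite A B
  refine ⟨⟨Finset.univ.image b, ?_⟩⟩
  rw [eq_top_iff]
  intro z _
  obtain ⟨c, hc⟩ := h z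
  rw [hc]
  refine Submodule.sum_mem _ fun i _ => ?_
  exact Submodule.smul_mem _ (c i) (Submodule.subset_span (by simp))

/-- A power series ring over an F-finite field is F-finite. -/
theorem ffin_PS {p : ℕ} [hp : Fact p.Prime] (d : ℕ) {k : Type*} [Field k] [CharP k p]
    [ExpChar (PS d k) p] (hk : FFin k p) : FFin (PS d k) p := by
  classical
  obtain ⟨G, -⟩ := Pool.Agent.Cub.exists_cartierGen (p := p) d hk 1
  let _ := G.fin
  refine finite_of_family _ G.b fun z => ⟨fun i => G.Φ (z * G.b' i), ?_⟩
  have h2 := G.dual z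
  simp only [pow_one] at h2
  simp only [frobenius_def]
  exact h2

/-- F-finiteness passes to finite algebras. -/
theorem ffin_of_finite {A R : Type*} [CommRing A] [CommRing R] {p : ℕ} [ExpChar A p]
    [ExpChar R p] (F : A →+* R) (hF : F.Finite) (hA : FFin A p) : FFin R p := by
  have h1 : (frobenius R p).comp F = F.comp (frobenius A p) := by
    ext x
    simp [frobenius_def]
  have h2 : (F.comp (frobenius A p)).Finite := hF.comp hA
  rw [← h1] at h2
  exact RingHom.Finite.of_comp_finite h2

/-- A perfect field is F-finite. -/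
theorem ffin_perfect (k : Type*) [Field k] (p : ℕ) [ExpChar k p] [PerfectRing k p] : FFin k p := by
  have h1 : Function.Surjective (frobenius k p) := surjective_frobenius k p
  exact RingHom.Finite.of_surjective _ h1

instance charP_Rg (m p : ℕ) (k : Type*) [Field k] [CharP k p] : CharP (Rg m k) p :=
  charP_of_injective_algebraMap (algebraMap k (Rg m k)).injective p

/-- The example ring is F-finite. -/
theorem ffin_Rg (m : ℕ) (k : Type*) [Field k] (p : ℕ) [hp : Fact p.Prime] [CharP k p]
    [ExpChar (Rg m k) p] (hk : FFin k p) : FFin (Rg m k) p := by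
  have : CharP (PS (m + 3) k) p :=
    charP_of_injective_ringHom (MvPowerSeries.C_injective (σ := Fin (m + 3)) (R := k)) p
  have : ExpChar (PS (m + 3) k) p := ExpChar.prime hp.out
  obtain ⟨F, -, -, hF⟩ := exists_F (m := m) (k := k)
  exact ffin_of_finite F hF (ffin_PS (m + 3) hk)

theorem ffin_Rg' (m : ℕ) (k : Type*) [Field k] (p : ℕ) [hp : Fact p.Prime] [CharP k p]
    [PerfectRing k p] [ExpChar (Rg m k) p] : FFin (Rg m k) p :=
  ffin_Rg m k p (ffin_perfect k p)

end Pool.Agent.Lib_helper77.FB
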