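import Pool.Agent.Lib_helper77.FB.TwoVar
import Pool.Agent.Lib_helper22.CN.Cohen

/-!
Existence of the arcs along which the cubic polynomial vanishes to high order.
-/

namespace Pool.Agent.Lib_helper77.FB

open PowerSeries

theorem exists_ev {k K : Type*} [Field k] [Field K] [Algebra k K] {ι : Type*} [Finite ι]
    (x : ι → PowerSeries K) (hx : ∀ i, (X : PowerSeries K) ∣ x i) :
    ∃ ev : MvPowerSeries ι k →+* PowerSeries K,
      (∀ a, ev (MvPowerSeries.C a) = C (algebraMap k K a)) ∧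
      ∀ i, ev (MvPowerSeries.X i) = x i := by
  obtain ⟨F, h1, h2⟩ := CN.exists_evalHom (Ideal.span {(X : PowerSeries K)})
    ((C : K →+* PowerSeries K).comp (algebraMap k K)) x
    (fun i => Ideal.mem_span_singleton.mpr (hx i))
  exact ⟨F, h1, h2⟩

/-- Two evaluations at congruent points are congruent. -/
theorem ev_congr {k K : Type*} [Field k] [Field K] [Algebra k K]
    {ev ev' : MvPowerSeries (Fin 2) k →+* PowerSeries K}
    (hC : ∀ a, ev (MvPowerSeries.C a) = C (algebraMap k K a))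
    (hC' : ∀ a, ev' (MvPowerSeries.C a) = C (algebraMap k K a))
    (h0 : (X : PowerSeries K) ∣ ev (MvPowerSeries.X 0))
    (h1 : (X : PowerSeries K) ∣ ev (MvPowerSeries.X 1)) {M : ℕ}
    (hM0 : (X : PowerSeries K) ^ M ∣ ev' (MvPowerSeries.X 0) - ev (MvPowerSeries.X 0))
    (hM1 : ev' (MvPowerSeries.X 1) = ev (MvPowerSeries.X 1)) (g : MvPowerSeries (Fin 2) k) :
    (X : PowerSeries K) ^ M ∣ ev' g - ev g := by
  have key : ∀ N ≤ M, ∀ g, (X : PowerSeries K) ^ N ∣ ev' g - ev g := by
    intro N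
    induction N with
    | zero => intro _ g; simp
    | succ N ih =>
      intro hN g
      obtain ⟨g1, g2, hg⟩ := exists_eq_two g
      have e1 : ev' g - ev g = (ev' (MvPowerSeries.X 0) - ev (MvPowerSeries.X 0)) * ev' g1 +
          ev (MvPowerSeries.X 0) * (ev' g1 - ev g1) +
          ev (MvPowerSeries.X 1) * (ev' g2 - ev g2) := by
        rw [hg]
        simp only [map_add, map_mul, hC, hC', hM1]
        ring
      rw [e1]
      refine dvd_add (dvd_add ?_ ?_) ?_
      · exact Dvd.dvd.mul_right ((pow_dvd_pow _ hN).trans hM0) _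
      · rw [pow_succ']
        exact mul_dvd_mul h0 (ih (by omega) g1)
      · rw [pow_succ']
        exact mul_dvd_mul h1 (ih (by omega) g2)
  exact key M le_rfl g

theorem exists_arc {k K : Type*} [Field k] [Field K] [Algebra k K] {T : K} {ε : k}
    {a b c e : MvPowerSeries (Fin 2) k} {g3 g2 g1 g0 : k} (hεg : ε * g3 = 0)
    (hG0 : algebraMap k K g3 * T ^ 3 + algebraMap k K g2 * T ^ 2 + algebraMap k K g1 * T +
      algebraMap k K g0 ≠ 0)
    (ha : Lin a g3 (ε * g2)) (hb : Lin b g2 (ε * g1)) (hc : Lin c g1 (ε * g0)) (he : Lin e g0 0)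
    (M : ℕ) :
    ∃ ev : MvPowerSeries (Fin 2) k →+* PowerSeries K,
      (∀ a, ev (MvPowerSeries.C a) = C (algebraMap k K a)) ∧ ev (MvPowerSeries.X 1) = X ∧
      (X : PowerSeries K) ^ 2 ∣ ev (MvPowerSeries.X 0) + C (algebraMap k K ε * T) * X ∧
      (X : PowerSeries K) ^ (M + 2) ∣
        ev a * C T ^ 3 + ev b * C T ^ 2 + ev c * C T + ev e := by
  obtain ⟨ap, aq, ar, ha⟩ := ha
  obtain ⟨bp, bq, br, hb⟩ := hb
  obtain ⟨cp, cq, cr, hc⟩ := hc
  obtain ⟨ep, eq, er, he⟩ := he
  set ι := algebraMap k K with hι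
  have hεg' : C (ι ε) * C (ι g3) = (0 : PowerSeries K) := by
    rw [← map_mul, ← map_mul, hεg, map_zero, map_zero]
  set G0 : K := ι g3 * T ^ 3 + ι g2 * T ^ 2 + ι g1 * T + ι g0 with hG0def
  -- the value of the cubic polynomial
  have hval : ∀ ev : MvPowerSeries (Fin 2) k →+* PowerSeries K,
      (∀ a, ev (MvPowerSeries.C a) = C (algebraMap k K a)) → ev (MvPowerSeries.X 1) = X →
      ev a * C T ^ 3 + ev b * C T ^ 2 + ev c * C T + ev e =
        C G0 * (ev (MvPowerSeries.X 0) + C (ι ε * T) * X) +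
        ev (MvPowerSeries.X 0) ^ 2 * (ev ap * C T ^ 3 + ev bp * C T ^ 2 + ev cp * C T + ev ep) +
        ev (MvPowerSeries.X 0) * X *
          (ev aq * C T ^ 3 + ev bq * C T ^ 2 + ev cq * C T + ev eq) +
        X ^ 2 * (ev ar * C T ^ 3 + ev br * C T ^ 2 + ev cr * C T + ev er) := by
    intro ev hC h1
    have ha' := congrArg ev ha
    have hb' := congrArg ev hb
    have hc' := congrArg ev hc
    have he' := congrArg ev he
    simp only [map_add, map_mul, map_pow, hC, h1, map_zero] at ha' hb' hc' he'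
    rw [ha', hb', hc', he', hG0def]
    simp only [map_add, map_mul, map_pow]
    linear_combination (-C T ^ 4 * X) * hεg'
  induction M with
  | zero =>
    obtain ⟨ev, hC, hX⟩ := exists_ev (k := k) (K := K) (ι := Fin 2)
      ![-(C (ι ε * T) * X), X] (by
        intro i
        fin_cases i
        · exact (dvd_neg.mpr (Dvd.intro_left _ rfl))
        · exact dvd_rfl)
    have h0 : ev (MvPowerSeries.X 0) = -(C (ι ε * T) * X) := hX 0
    have h1 : ev (MvPowerSeries.X 1) = X := hX 1
    refine ⟨ev, hC, h1, ?_, ?_⟩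
    · rw [h0]
      simp
    · rw [hval ev hC h1, h0]
      exact ⟨C (ι ε * T) ^ 2 * (ev ap * C T ^ 3 + ev bp * C T ^ 2 + ev cp * C T + ev ep) -
        C (ι ε * T) * (ev aq * C T ^ 3 + ev bq * C T ^ 2 + ev cq * C T + ev eq) +
        (ev ar * C T ^ 3 + ev br * C T ^ 2 + ev cr * C T + ev er), by ring⟩
  | succ M ih =>
    obtain ⟨ev, hC, h1, h0, hΦ⟩ := ih
    set x := ev (MvPowerSeries.X 0) with hx
    have hX0 : (X : PowerSeries K) ∣ x := by
      have h2 : (X : PowerSeries K) ∣ x + C (ι ε * T) * X :=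
        dvd_trans (dvd_pow_self X two_ne_zero) h0
      have h3 : x = (x + C (ι ε * T) * X) - C (ι ε * T) * X := by ring
      rw [h3]
      exact dvd_sub h2 (Dvd.intro_left _ rfl)
    have hX1 : (X : PowerSeries K) ∣ ev (MvPowerSeries.X 1) := by rw [h1]
    obtain ⟨Ψ, hΨ⟩ := hΦ
    set δ : PowerSeries K := -(C (constantCoeff Ψ / G0) * X ^ (M + 2)) with hδ
    have hδd : (X : PowerSeries K) ^ (M + 2) ∣ δ := dvd_neg.mpr (Dvd.intro_left _ rfl)
    obtain ⟨ev', hC', hX'⟩ := exists_ev (k := k) (K := K) (ι := Fin 2)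
      ![x + δ, X] (by
        intro i
        fin_cases i
        · exact dvd_add hX0 (dvd_trans (dvd_pow_self X (by omega)) hδd)
        · exact dvd_rfl)
    have h0' : ev' (MvPowerSeries.X 0) = x + δ := hX' 0
    have h1' : ev' (MvPowerSeries.X 1) = X := hX' 1
    have hcong : ∀ g, (X : PowerSeries K) ^ (M + 2) ∣ ev' g - ev g :=
      ev_congr hC hC' hX0 hX1 (by rw [h0', ← hx, add_sub_cancel_left]; exact hδd)
        (by rw [h1, h1'])
    refine ⟨ev', hC', h1', ?_, ?_⟩
    · rw [h0']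
      have e1 : x + δ + C (ι ε * T) * X = (x + C (ι ε * T) * X) + δ := by ring
      rw [e1]
      exact dvd_add h0 ((pow_dvd_pow X (by omega)).trans hδd)
    · have hv' := hval ev' hC' h1'
      have hv := hval ev hC h1
      rw [h0'] at hv'
      rw [← hx, hΨ] at hv
      have hcomb : ∀ u v w y : MvPowerSeries (Fin 2) k, (X : PowerSeries K) ^ (M + 2) ∣
          (ev' u * C T ^ 3 + ev' v * C T ^ 2 + ev' w * C T + ev' y) -
          (ev u * C T ^ 3 + ev v * C T ^ 2 + ev w * C T + ev y) := by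
        intro u v w y
        have e1 : (ev' u * C T ^ 3 + ev' v * C T ^ 2 + ev' w * C T + ev' y) -
          (ev u * C T ^ 3 + ev v * C T ^ 2 + ev w * C T + ev y) =
          (ev' u - ev u) * C T ^ 3 + (ev' v - ev v) * C T ^ 2 + (ev' w - ev w) * C T +
          (ev' y - ev y) := by ring
        rw [e1]
        exact dvd_add (dvd_add (dvd_add (Dvd.dvd.mul_right (hcong u) _)
          (Dvd.dvd.mul_right (hcong v) _)) (Dvd.dvd.mul_right (hcong w) _)) (hcong y)
      have hsplit : ev' a * C T ^ 3 + ev' b * C T ^ 2 + ev' c * C T + ev' e =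
          (X ^ (M + 2) * Ψ + C G0 * δ) +
          δ * (x + x + δ) * (ev' ap * C T ^ 3 + ev' bp * C T ^ 2 + ev' cp * C T + ev' ep) +
          x ^ 2 * ((ev' ap * C T ^ 3 + ev' bp * C T ^ 2 + ev' cp * C T + ev' ep) -
            (ev ap * C T ^ 3 + ev bp * C T ^ 2 + ev cp * C T + ev ep)) +
          δ * X * (ev' aq * C T ^ 3 + ev' bq * C T ^ 2 + ev' cq * C T + ev' eq) +
          x * X * ((ev' aq * C T ^ 3 + ev' bq * C T ^ 2 + ev' cq * C T + ev' eq) -
            (ev aq * C T ^ 3 + ev bq * C T ^ 2 + ev cq * C T + ev eq)) +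
          X ^ 2 * ((ev' ar * C T ^ 3 + ev' br * C T ^ 2 + ev' cr * C T + ev' er) -
            (ev ar * C T ^ 3 + ev br * C T ^ 2 + ev cr * C T + ev er)) := by
        linear_combination hv' - hv
      rw [hsplit]
      have hxδ : (X : PowerSeries K) ∣ x + x + δ :=
        dvd_add (dvd_add hX0 hX0) (dvd_trans (dvd_pow_self X (by omega)) hδd)
      refine dvd_add (dvd_add (dvd_add (dvd_add (dvd_add ?_ ?_) ?_) ?_) ?_) ?_
      · have e2 : X ^ (M + 2) * Ψ + C G0 * δ = X ^ (M + 2) * (Ψ - C (constantCoeff Ψ)) := by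
          have e3 : C G0 * C (constantCoeff Ψ / G0) = (C (constantCoeff Ψ) : PowerSeries K) := by
            rw [← map_mul, mul_div_cancel₀ _ hG0]
          rw [hδ]
          linear_combination (-(X ^ (M + 2))) * e3
        rw [e2, show M + 1 + 2 = M + 2 + 1 by ring, pow_succ]
        refine mul_dvd_mul dvd_rfl ?_
        rw [X_dvd_iff]
        simp
      · rw [show M + 1 + 2 = M + 2 + 1 by ring, pow_succ]
        exact Dvd.dvd.mul_right (mul_dvd_mul hδd hxδ) _
      · have e4 : (X : PowerSeries K) ^ (M + 1 + 2) = X * X ^ (M + 2) := by ring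
        rw [e4]
        exact mul_dvd_mul (hX0.trans (dvd_pow_self x two_ne_zero)) (hcomb _ _ _ _)
      · rw [show M + 1 + 2 = M + 2 + 1 by ring, pow_succ]
        exact Dvd.dvd.mul_right (mul_dvd_mul hδd dvd_rfl) _
      · have e4 : (X : PowerSeries K) ^ (M + 1 + 2) = X * X ^ (M + 2) := by ring
        rw [e4]
        exact mul_dvd_mul (Dvd.intro_left _ rfl) (hcomb _ _ _ _)
      · have e4 : (X : PowerSeries K) ^ (M + 1 + 2) = X * X ^ (M + 2) := by ring
        rw [e4]
        exact mul_dvd_mul (dvd_pow_self X two_ne_zero) (hcomb _ _ _ _)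

end Pool.Agent.Lib_helper77.FB
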