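import Pool.Agent.Lib_helper22.CN.PSIdeal

/-!
The chart lemma: leading coefficients of elements of a subring of `K[[Z]]` generated by two
parameters `ξ, z` subject to one relation `G' ξ + f₀ z ^ 2 = 0` modulo `Z ^ M`.
-/

namespace Pool.Agent.Lib_helper77.FB

open PowerSeries

/-- The coefficient of `Z ^ n` of a product `x * y` with `Z ^ a ∣ x`, `Z ^ b ∣ y`, `n = a + b`. -/
theorem coeff_mul_of_dvd {K : Type*} [CommRing K] {a b : ℕ} {x y : PowerSeries K}
    (hx : (X : PowerSeries K) ^ a ∣ x) (hy : (X : PowerSeries K) ^ b ∣ y) :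
    coeff (a + b) (x * y) = coeff a x * coeff b y := by
  obtain ⟨x', rfl⟩ := hx
  obtain ⟨y', rfl⟩ := hy
  have h1 : (X : PowerSeries K) ^ a * x' * (X ^ b * y') = X ^ (a + b) * (x' * y') := by ring
  have h2 := coeff_X_pow_mul (x' * y') (a + b) 0
  have h3 := coeff_X_pow_mul x' a 0
  have h4 := coeff_X_pow_mul y' b 0
  rw [zero_add] at h2 h3 h4
  rw [h1, h2, h3, h4]
  simp

theorem chart {K : Type*} [Field K] (S : Subring (PowerSeries K)) (O : Subring K)
    (hS0 : ∀ s ∈ S, constantCoeff s ∈ O) (ξ z : PowerSeries K)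
    (hS1 : ∀ s ∈ S, constantCoeff s = 0 → ∃ u ∈ S, ∃ v ∈ S, s = ξ * u + z * v)
    (hz : z ∈ S) (hξ2 : (X : PowerSeries K) ^ 2 ∣ ξ) (ω : K) (hω : ω ≠ 0)
    (hz1 : (X : PowerSeries K) ∣ z) (hz2 : coeff 1 z = ω)
    (G f : PowerSeries K) (hG : G ∈ S) (hf : f ∈ S) (M : ℕ)
    (hF : (X : PowerSeries K) ^ M ∣ G * ξ + f * z ^ 2) :
    ∀ n < M, ∀ s ∈ S, (X : PowerSeries K) ^ n ∣ s →
      ∃ P ∈ O, (constantCoeff G) ^ (n / 2) * coeff n s = ω ^ n * P := by
  intro n
  induction n using Nat.strong_induction_on with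
  | _ n ih =>
  intro hn s hs hXs
  match n, ih, hn, hXs with
  | 0, _, _, _ =>
    refine ⟨constantCoeff s, hS0 s hs, ?_⟩
    simp
  | 1, _, _, hXs =>
    have h0 : constantCoeff s = 0 := by
      rw [pow_one] at hXs
      exact X_dvd_iff.mp hXs
    obtain ⟨u, hu, v, hv, rfl⟩ := hS1 s hs h0
    refine ⟨constantCoeff v, hS0 v hv, ?_⟩
    have h1 : coeff 1 (ξ * u) = 0 := by
      obtain ⟨ξ', rfl⟩ := hξ2
      rw [mul_assoc]
      exact (X_pow_dvd_iff.mp (Dvd.intro _ rfl)) 1 (by norm_num)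
    have h2 : coeff (1 + 0) (z * v) = coeff 1 z * coeff 0 v :=
      coeff_mul_of_dvd (by rwa [pow_one]) (by simp)
    rw [add_zero, hz2] at h2
    rw [map_add, h1, h2]
    simp
  | (n + 2), ih, hn, hXs =>
    have h0 : constantCoeff s = 0 := by
      have := (X_pow_dvd_iff.mp hXs) 0 (by omega)
      simpa using this
    obtain ⟨u, hu, v, hv, rfl⟩ := hS1 s hs h0
    have h1 : coeff 1 (ξ * u) = 0 := by
      obtain ⟨ξ', rfl⟩ := hξ2
      rw [mul_assoc]
      exact (X_pow_dvd_iff.mp (Dvd.intro _ rfl)) 1 (by norm_num)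
    have h2 : coeff (1 + 0) (z * v) = coeff 1 z * coeff 0 v :=
      coeff_mul_of_dvd (by rwa [pow_one]) (by simp)
    rw [add_zero, hz2] at h2
    have h3 := (X_pow_dvd_iff.mp hXs) 1 (by omega)
    rw [map_add, h1, h2, zero_add, mul_eq_zero] at h3
    have hv0 : constantCoeff v = 0 := by
      rcases h3 with h3 | h3
      · exact absurd h3 hω
      · simpa using h3
    obtain ⟨u', hu', v', hv', rfl⟩ := hS1 v hv hv0
    -- `y = G v' - f (u + z u')`
    have hyS : G * v' - f * (u + z * u') ∈ S :=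
      S.sub_mem (S.mul_mem hG hv') (S.mul_mem hf (S.add_mem hu (S.mul_mem hz hu')))
    have hkey : G * (ξ * u + z * (ξ * u' + z * v')) =
        (G * ξ + f * z ^ 2) * (u + z * u') + z ^ 2 * (G * v' - f * (u + z * u')) := by ring
    obtain ⟨w, hw⟩ := hF
    rw [hw] at hkey
    have hzy : (X : PowerSeries K) ^ (n + 2) ∣ z ^ 2 * (G * v' - f * (u + z * u')) := by
      have e1 : z ^ 2 * (G * v' - f * (u + z * u')) =
          G * (ξ * u + z * (ξ * u' + z * v')) - X ^ M * (w * (u + z * u')) := by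
        rw [hkey]; ring
      rw [e1]
      exact dvd_sub (Dvd.dvd.mul_left hXs G)
        (Dvd.dvd.mul_right (pow_dvd_pow X (by omega)) _)
    -- `z` is `Z` times a unit
    obtain ⟨z', hz'⟩ := hz1
    have hz'0 : constantCoeff z' = ω := by
      have : coeff 1 z = constantCoeff z' := by
        rw [hz']
        simp
      rw [← this, hz2]
    have hunit : IsUnit z' := by
      rw [isUnit_iff_constantCoeff, hz'0]
      exact isUnit_iff_ne_zero.mpr hω
    have hy : (X : PowerSeries K) ^ n ∣ G * v' - f * (u + z * u') := by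
      have e2 : z ^ 2 * (G * v' - f * (u + z * u')) =
          X ^ 2 * (z' ^ 2 * (G * v' - f * (u + z * u'))) := by
        rw [hz']; ring
      rw [e2, add_comm n 2, pow_add] at hzy
      have h5 := (mul_dvd_mul_iff_left (pow_ne_zero 2 (X_ne_zero (R := K)))).mp hzy
      exact (IsUnit.dvd_mul_left (hunit.pow 2)).mp h5
    obtain ⟨P, hP, hPe⟩ := ih n (by omega) (by omega) _ hyS hy
    refine ⟨P, hP, ?_⟩
    have hc1 : coeff (n + 2) (G * (ξ * u + z * (ξ * u' + z * v'))) =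
        constantCoeff G * coeff (n + 2) (ξ * u + z * (ξ * u' + z * v')) := by
      have := coeff_mul_of_dvd (a := 0) (b := n + 2) (x := G)
        (y := ξ * u + z * (ξ * u' + z * v')) (by simp) hXs
      rw [zero_add] at this
      rw [this]; simp
    have hc2 : coeff (n + 2) (z ^ 2 * (G * v' - f * (u + z * u'))) =
        ω ^ 2 * coeff n (G * v' - f * (u + z * u')) := by
      have := coeff_mul_of_dvd (a := 2) (b := n) (x := z ^ 2)
        (y := G * v' - f * (u + z * u')) (pow_dvd_pow_of_dvd ⟨z', hz'⟩ 2) hy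
      rw [add_comm 2 n] at this
      rw [this]
      congr 1
      have h6 := coeff_mul_of_dvd (a := 1) (b := 1) (x := z) (y := z)
        (by rw [pow_one]; exact ⟨z', hz'⟩) (by rw [pow_one]; exact ⟨z', hz'⟩)
      rw [hz2] at h6
      rw [pow_two, pow_two]
      exact h6
    have hc3 : coeff (n + 2) (X ^ M * w * (u + z * u')) = 0 := by
      rw [mul_assoc]
      exact (X_pow_dvd_iff.mp (Dvd.intro _ rfl)) (n + 2) hn
    have hc4 := congrArg (coeff (n + 2)) hkey
    rw [hc1, map_add (coeff (n + 2)) (X ^ M * w * (u + z * u')), hc3, zero_add, hc2] at hc4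
    have e3 : (n + 2) / 2 = n / 2 + 1 := by omega
    rw [e3, pow_succ, mul_assoc, hc4]
    rw [show constantCoeff G ^ (n / 2) * (ω ^ 2 * coeff n (G * v' - f * (u + z * u'))) =
      ω ^ 2 * (constantCoeff G ^ (n / 2) * coeff n (G * v' - f * (u + z * u'))) by ring, hPe]
    ring

/-- Degree comparison of a polynomial in `T` and a polynomial in `T⁻¹`. -/
theorem degree_le {k K : Type*} [Field k] [Field K] [Algebra k K] {T : K}
    (hT : Transcendental k T) {P Q : Polynomial k} (hP : P ≠ 0) {a b : ℕ}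
    (h : T ^ a * Polynomial.eval₂ (algebraMap k K) T P =
      T ^ b * Polynomial.eval₂ (algebraMap k K) T⁻¹ Q) : a ≤ b := by
  have hT0 : T ≠ 0 := by
    rintro rfl
    exact hT isAlgebraic_zero
  have hinj : Function.Injective (Polynomial.aeval (R := k) T) :=
    transcendental_iff_injective.mp hT
  have hr : T ^ Q.natDegree * Polynomial.eval₂ (algebraMap k K) T⁻¹ Q =
      Polynomial.eval₂ (algebraMap k K) T Q.reverse := by
    let _ : Invertible T⁻¹ := invertibleOfNonzero (inv_ne_zero hT0)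
    have h1 := Polynomial.eval₂_reverse_mul_pow (algebraMap k K) T⁻¹ Q
    rw [invOf_eq_inv, inv_inv] at h1
    rw [← h1, mul_comm, mul_assoc, ← mul_pow, inv_mul_cancel₀ hT0, one_pow, mul_one]
  have h2 : Polynomial.aeval (R := k) T (Polynomial.X ^ (a + Q.natDegree) * P) =
      Polynomial.aeval (R := k) T (Polynomial.X ^ b * Q.reverse) := by
    rw [map_mul, map_mul, map_pow, map_pow, Polynomial.aeval_X, Polynomial.aeval_def,
      Polynomial.aeval_def, ← hr]
    calc T ^ (a + Q.natDegree) * Polynomial.eval₂ (algebraMap k K) T P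
        = T ^ Q.natDegree * (T ^ a * Polynomial.eval₂ (algebraMap k K) T P) := by ring
      _ = _ := by rw [h]; ring
  have h3 := hinj h2
  have hQ : Q.reverse ≠ 0 := by
    intro h0
    rw [h0, mul_zero] at h3
    exact mul_ne_zero (pow_ne_zero _ Polynomial.X_ne_zero) hP h3
  have h4 := congrArg Polynomial.natDegree h3
  rw [Polynomial.natDegree_mul (pow_ne_zero _ Polynomial.X_ne_zero) hP,
    Polynomial.natDegree_mul (pow_ne_zero _ Polynomial.X_ne_zero) hQ,
    Polynomial.natDegree_X_pow, Polynomial.natDegree_X_pow] at h4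
  have h5 := Polynomial.reverse_natDegree_le Q
  omega

/-- the subring `k[τ]` of `K` -/
noncomputable abbrev OO (k : Type*) {K : Type*} [Field k] [Field K] [Algebra k K] (τ : K) :
    Subring K := (Polynomial.eval₂RingHom (algebraMap k K) τ).range

/-- the subring of `K[[Z]]` of the values of elements of `k[[X, Z]][t]` -/
noncomputable abbrev SS {k K : Type*} [Field k] [Field K]
    (ev : MvPowerSeries (Fin 2) k →+* PowerSeries K) (τ : K) : Subring (PowerSeries K) :=
  (Polynomial.eval₂RingHom ev (C τ)).range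

theorem C_mem_SS {k K : Type*} [Field k] [Field K] [Algebra k K]
    {ev : MvPowerSeries (Fin 2) k →+* PowerSeries K}
    (hC : ∀ a, ev (MvPowerSeries.C a) = C (algebraMap k K a)) {τ x : K} (hx : x ∈ OO k τ) :
    C x ∈ SS ev τ := by
  obtain ⟨g, rfl⟩ := hx
  refine ⟨g.map MvPowerSeries.C, ?_⟩
  rw [Polynomial.coe_eval₂RingHom, Polynomial.eval₂_map, Polynomial.coe_eval₂RingHom,
    Polynomial.hom_eval₂]
  congr 1
  ext a : 1
  exact hC a

theorem ev_mem_SS {k K : Type*} [Field k] [Field K]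
    (ev : MvPowerSeries (Fin 2) k →+* PowerSeries K) (τ : K) (g : MvPowerSeries (Fin 2) k) :
    ev g ∈ SS ev τ := ⟨Polynomial.C g, by simp⟩

theorem exists_eq_two {k : Type*} [Field k] (g : MvPowerSeries (Fin 2) k) :
    ∃ g1 g2 : MvPowerSeries (Fin 2) k, g = MvPowerSeries.C (MvPowerSeries.constantCoeff g) +
      MvPowerSeries.X 0 * g1 + MvPowerSeries.X 1 * g2 := by
  have h : g - MvPowerSeries.C (MvPowerSeries.constantCoeff g) ∈ CN.varIdeal (Fin 2) k ^ 1 := by
    rw [CN.mem_varIdeal_pow_iff]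
    intro d hd
    have hd0 : d = 0 := by
      rw [← Finsupp.degree_eq_zero_iff]
      omega
    subst hd0
    simp
  rw [pow_one, CN.varIdeal] at h
  have h2 : (Set.range (MvPowerSeries.X : Fin 2 → MvPowerSeries (Fin 2) k)) =
      {MvPowerSeries.X 0, MvPowerSeries.X 1} := by
    ext x
    simp [Fin.exists_fin_two, eq_comm]
  rw [h2, Ideal.mem_span_pair] at h
  obtain ⟨a, b, hab⟩ := h
  exact ⟨a, b, by linear_combination -hab⟩

theorem constantCoeff_ev {k K : Type*} [Field k] [Field K] [Algebra k K]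
    {ev : MvPowerSeries (Fin 2) k →+* PowerSeries K}
    (hC : ∀ a, ev (MvPowerSeries.C a) = C (algebraMap k K a))
    (h0 : (X : PowerSeries K) ∣ ev (MvPowerSeries.X 0))
    (h1 : (X : PowerSeries K) ∣ ev (MvPowerSeries.X 1)) (g : MvPowerSeries (Fin 2) k) :
    constantCoeff (ev g) = algebraMap k K (MvPowerSeries.constantCoeff g) := by
  obtain ⟨g1, g2, hg⟩ := exists_eq_two g
  rw [X_dvd_iff] at h0 h1
  have h2 := congrArg (fun x => constantCoeff (ev x)) hg
  simp only [map_add, map_mul, h0, h1, zero_mul, add_zero, hC, constantCoeff_C] at h2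
  exact h2

theorem exists_eq_two_poly {k : Type*} [Field k] (g : Polynomial (MvPowerSeries (Fin 2) k)) :
    ∃ g1 g2 : Polynomial (MvPowerSeries (Fin 2) k),
      g = (g.map MvPowerSeries.constantCoeff).map MvPowerSeries.C +
        Polynomial.C (MvPowerSeries.X 0) * g1 + Polynomial.C (MvPowerSeries.X 1) * g2 := by
  induction g using Polynomial.induction_on' with
  | add p q hp hq =>
    obtain ⟨p1, p2, hp⟩ := hp
    obtain ⟨q1, q2, hq⟩ := hq
    refine ⟨p1 + q1, p2 + q2, ?_⟩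
    rw [Polynomial.map_add, Polynomial.map_add]
    linear_combination hp + hq
  | monomial n a =>
    obtain ⟨g1, g2, hg⟩ := exists_eq_two a
    refine ⟨Polynomial.monomial n g1, Polynomial.monomial n g2, ?_⟩
    rw [Polynomial.map_monomial, Polynomial.map_monomial, Polynomial.C_mul_monomial,
      Polynomial.C_mul_monomial, ← map_add, ← map_add, ← hg]

theorem SS_const {k K : Type*} [Field k] [Field K] [Algebra k K]
    {ev : MvPowerSeries (Fin 2) k →+* PowerSeries K}
    (hC : ∀ a, ev (MvPowerSeries.C a) = C (algebraMap k K a))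
    (h0 : (X : PowerSeries K) ∣ ev (MvPowerSeries.X 0))
    (h1 : (X : PowerSeries K) ∣ ev (MvPowerSeries.X 1)) (τ : K) (s : PowerSeries K)
    (hs : s ∈ SS ev τ) : constantCoeff s ∈ OO k τ := by
  obtain ⟨g, rfl⟩ := hs
  refine ⟨g.map MvPowerSeries.constantCoeff, ?_⟩
  rw [Polynomial.coe_eval₂RingHom, Polynomial.eval₂_map, Polynomial.coe_eval₂RingHom,
    Polynomial.hom_eval₂, constantCoeff_C]
  congr 1
  ext a : 1
  exact (constantCoeff_ev hC h0 h1 a).symm

theorem SS_decomp {k K : Type*} [Field k] [Field K] [Algebra k K]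
    {ev : MvPowerSeries (Fin 2) k →+* PowerSeries K}
    (hC : ∀ a, ev (MvPowerSeries.C a) = C (algebraMap k K a))
    (h0 : (X : PowerSeries K) ∣ ev (MvPowerSeries.X 0))
    (h1 : (X : PowerSeries K) ∣ ev (MvPowerSeries.X 1)) (τ : K) (s : PowerSeries K)
    (hs : s ∈ SS ev τ) (hs0 : constantCoeff s = 0) :
    ∃ u ∈ SS ev τ, ∃ v ∈ SS ev τ,
      s = ev (MvPowerSeries.X 0) * u + ev (MvPowerSeries.X 1) * v := by
  obtain ⟨g, rfl⟩ := hs
  obtain ⟨g1, g2, hg⟩ := exists_eq_two_poly g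
  refine ⟨_, ⟨g1, rfl⟩, _, ⟨g2, rfl⟩, ?_⟩
  have h2 : (Polynomial.eval₂RingHom ev (C τ))
      ((g.map MvPowerSeries.constantCoeff).map MvPowerSeries.C) =
      C (Polynomial.eval₂ (algebraMap k K) τ (g.map MvPowerSeries.constantCoeff)) := by
    rw [Polynomial.coe_eval₂RingHom, Polynomial.eval₂_map, Polynomial.hom_eval₂]
    congr 1
    ext a : 1
    exact hC a
  have h3 : Polynomial.eval₂ (algebraMap k K) τ (g.map MvPowerSeries.constantCoeff) = 0 := by
    rw [Polynomial.coe_eval₂RingHom, Polynomial.hom_eval₂, constantCoeff_C] at hs0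
    rw [← hs0, Polynomial.eval₂_map]
    congr 1
    ext a : 1
    exact (constantCoeff_ev hC h0 h1 a).symm
  have h4 := congrArg (Polynomial.eval₂RingHom ev (C τ)) hg
  rw [map_add, map_add, h2, h3, map_zero, zero_add, map_mul, map_mul] at h4
  rw [h4]
  simp

/-- The chart lemma with an explicit linear change of parameters. -/
theorem chart2 {k K : Type*} [Field k] [Field K] [Algebra k K]
    {ev : MvPowerSeries (Fin 2) k →+* PowerSeries K}
    (hC : ∀ a, ev (MvPowerSeries.C a) = C (algebraMap k K a))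
    (h0 : (X : PowerSeries K) ∣ ev (MvPowerSeries.X 0))
    (h1 : (X : PowerSeries K) ∣ ev (MvPowerSeries.X 1)) (τ : K) (ξ z : PowerSeries K)
    {p0 q0 p1 q1 : K} (hp0 : p0 ∈ OO k τ) (hq0 : q0 ∈ OO k τ) (hp1 : p1 ∈ OO k τ)
    (hq1 : q1 ∈ OO k τ) (e0 : ev (MvPowerSeries.X 0) = C p0 * ξ + C q0 * z)
    (e1 : ev (MvPowerSeries.X 1) = C p1 * ξ + C q1 * z)
    (hξ : ξ ∈ SS ev τ) (hz : z ∈ SS ev τ) (hξ2 : (X : PowerSeries K) ^ 2 ∣ ξ) (ω : K)
    (hω : ω ≠ 0) (hz1 : (X : PowerSeries K) ∣ z) (hz2 : coeff 1 z = ω) {G0 : K}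
    (hG0 : G0 ∈ OO k τ) {α β γ : PowerSeries K} (hα : α ∈ SS ev τ) (hβ : β ∈ SS ev τ)
    (hγ : γ ∈ SS ev τ) (M : ℕ)
    (hF : (X : PowerSeries K) ^ M ∣ C G0 * ξ + ev (MvPowerSeries.X 0) ^ 2 * α +
      ev (MvPowerSeries.X 0) * ev (MvPowerSeries.X 1) * β + ev (MvPowerSeries.X 1) ^ 2 * γ) :
    ∀ n < M, ∀ s ∈ SS ev τ, (X : PowerSeries K) ^ n ∣ s →
      ∃ P ∈ OO k τ, G0 ^ (n / 2) * coeff n s = ω ^ n * P := by
  have cp0 := C_mem_SS hC hp0
  have cq0 := C_mem_SS hC hq0
  have cp1 := C_mem_SS hC hp1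
  have cq1 := C_mem_SS hC hq1
  have cG0 := C_mem_SS hC hG0
  set S := SS ev τ with hS
  -- the two new coefficients
  have hG : C G0 + (C p0 ^ 2 * ξ + (C p0 * C q0 + C p0 * C q0) * z) * α +
      (C p0 * C p1 * ξ + (C p0 * C q1 + C p1 * C q0) * z) * β +
      (C p1 ^ 2 * ξ + (C p1 * C q1 + C p1 * C q1) * z) * γ ∈ S := by
    refine S.add_mem (S.add_mem (S.add_mem cG0 (S.mul_mem (S.add_mem ?_ ?_) hα))
      (S.mul_mem (S.add_mem ?_ ?_) hβ)) (S.mul_mem (S.add_mem ?_ ?_) hγ)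
    · exact S.mul_mem (S.pow_mem cp0 2) hξ
    · exact S.mul_mem (S.add_mem (S.mul_mem cp0 cq0) (S.mul_mem cp0 cq0)) hz
    · exact S.mul_mem (S.mul_mem cp0 cp1) hξ
    · exact S.mul_mem (S.add_mem (S.mul_mem cp0 cq1) (S.mul_mem cp1 cq0)) hz
    · exact S.mul_mem (S.pow_mem cp1 2) hξ
    · exact S.mul_mem (S.add_mem (S.mul_mem cp1 cq1) (S.mul_mem cp1 cq1)) hz
  have hf : C q0 ^ 2 * α + C q0 * C q1 * β + C q1 ^ 2 * γ ∈ S :=
    S.add_mem (S.add_mem (S.mul_mem (S.pow_mem cq0 2) hα)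
      (S.mul_mem (S.mul_mem cq0 cq1) hβ)) (S.mul_mem (S.pow_mem cq1 2) hγ)
  have hS1 : ∀ s ∈ S, constantCoeff s = 0 → ∃ u ∈ S, ∃ v ∈ S, s = ξ * u + z * v := by
    intro s hs hs0
    obtain ⟨u, hu, v, hv, rfl⟩ := SS_decomp hC h0 h1 τ s hs hs0
    refine ⟨C p0 * u + C p1 * v, S.add_mem (S.mul_mem cp0 hu) (S.mul_mem cp1 hv),
      C q0 * u + C q1 * v, S.add_mem (S.mul_mem cq0 hu) (S.mul_mem cq1 hv), ?_⟩
    rw [e0, e1]; ring
  have key := chart S (OO k τ) (SS_const hC h0 h1 τ) ξ z hS1 hz hξ2 ω hω hz1 hz2 _ _ hG hf M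
    (by
      convert hF using 1
      rw [e0, e1]; ring)
  have hξ0 : constantCoeff ξ = 0 := by
    obtain ⟨ξ', rfl⟩ := hξ2
    simp
  have hz0 : constantCoeff z = 0 := X_dvd_iff.mp hz1
  have hc : constantCoeff (C G0 + (C p0 ^ 2 * ξ + (C p0 * C q0 + C p0 * C q0) * z) * α +
      (C p0 * C p1 * ξ + (C p0 * C q1 + C p1 * C q0) * z) * β +
      (C p1 ^ 2 * ξ + (C p1 * C q1 + C p1 * C q1) * z) * γ) = G0 := by
    simp [hξ0, hz0]
  rw [hc] at key
  exact key

end Pool.Agent.Lib_helper77.FB
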