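import Pool.Agent.Lib_helper77.FB.Transfer
import Pool.Agent.Lib_helper22.CN.Dim

/-!
Base points of total degree at least two (block (B) of MP_7dd379_ag).
-/

namespace Pool.Agent.Lib_helper77.FB

open CN (varIdeal)

theorem exists_phi {ι k : Type*} [Finite ι] [Field k] (α β : ι → k) :
    ∃ φ : MvPowerSeries ι k →+* MvPowerSeries (Fin 2) k,
      (∀ a, φ (MvPowerSeries.C a) = MvPowerSeries.C a) ∧
      ∀ i, φ (MvPowerSeries.X i) = MvPowerSeries.C (α i) * MvPowerSeries.X 0 +
        MvPowerSeries.C (β i) * MvPowerSeries.X 1 := by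
  have hs : MvPowerSeries.HasSubst (fun i => MvPowerSeries.C (α i) * MvPowerSeries.X 0 +
        MvPowerSeries.C (β i) * MvPowerSeries.X (1 : Fin 2) : ι → MvPowerSeries (Fin 2) k) :=
    MvPowerSeries.hasSubst_of_constantCoeff_zero (by intro i; simp)
  refine ⟨(MvPowerSeries.substAlgHom (R := k) hs).toRingHom, ?_, ?_⟩
  · intro a
    exact AlgHom.commutes (MvPowerSeries.substAlgHom (R := k) hs) a
  · intro i
    exact MvPowerSeries.substAlgHom_X hs i

theorem Lin.add {k : Type*} [Field k] {f g : MvPowerSeries (Fin 2) k} {x z x' z' : k}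
    (hf : Lin f x z) (hg : Lin g x' z') : Lin (f + g) (x + x') (z + z') := by
  obtain ⟨p, q, r, rfl⟩ := hf
  obtain ⟨p', q', r', rfl⟩ := hg
  refine ⟨p + p', q + q', r + r', ?_⟩
  rw [map_add, map_add]
  ring

theorem Lin.smul {k : Type*} [Field k] {f : MvPowerSeries (Fin 2) k} {x z : k} (t : k)
    (hf : Lin f x z) : Lin (MvPowerSeries.C t * f) (t * x) (t * z) := by
  obtain ⟨p, q, r, rfl⟩ := hf
  refine ⟨MvPowerSeries.C t * p, MvPowerSeries.C t * q, MvPowerSeries.C t * r, ?_⟩
  rw [map_mul, map_mul]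
  ring

theorem Lin.zero {k : Type*} [Field k] : Lin (0 : MvPowerSeries (Fin 2) k) 0 0 :=
  ⟨0, 0, 0, by simp⟩

theorem Lin.sum {k ι : Type*} [Field k] (s : Finset ι) (f : ι → MvPowerSeries (Fin 2) k)
    (x z : ι → k) (h : ∀ i ∈ s, Lin (f i) (x i) (z i)) :
    Lin (∑ i ∈ s, f i) (∑ i ∈ s, x i) (∑ i ∈ s, z i) := by
  classical
  induction s using Finset.induction_on with
  | empty => simpa using Lin.zero
  | insert i s hi ih =>
    rw [Finset.sum_insert hi, Finset.sum_insert hi, Finset.sum_insert hi]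
    exact (h i (Finset.mem_insert_self _ _)).add
      (ih fun j hj => h j (Finset.mem_insert_of_mem hj))

theorem span_X_two (k : Type*) [Field k] : varIdeal (Fin 2) k =
    Ideal.span {MvPowerSeries.X 0, MvPowerSeries.X 1} := by
  rw [varIdeal]
  congr 1
  ext x
  simp [Fin.exists_fin_two, eq_comm]

theorem Lin.of_sq {k : Type*} [Field k] {f : MvPowerSeries (Fin 2) k}
    (hf : f ∈ varIdeal (Fin 2) k ^ 2) : Lin f 0 0 := by
  rw [pow_two] at hf
  refine Submodule.mul_induction_on hf ?_ ?_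
  · intro x hx y hy
    rw [span_X_two, Ideal.mem_span_pair] at hx hy
    obtain ⟨a, b, rfl⟩ := hx
    obtain ⟨a', b', rfl⟩ := hy
    exact ⟨a * a', a * b' + b * a', b * b', by rw [map_zero]; ring⟩
  · intro x y hx hy
    simpa using hx.add hy

theorem phi_sq {ι k : Type*} [Field k] {α β : ι → k}
    {φ : MvPowerSeries ι k →+* MvPowerSeries (Fin 2) k}
    (hX : ∀ i, φ (MvPowerSeries.X i) = MvPowerSeries.C (α i) * MvPowerSeries.X 0 +
        MvPowerSeries.C (β i) * MvPowerSeries.X 1) {f : MvPowerSeries ι k}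
    (hf : f ∈ varIdeal ι k ^ 2) : φ f ∈ varIdeal (Fin 2) k ^ 2 := by
  have h1 : (varIdeal ι k).map φ ≤ varIdeal (Fin 2) k := by
    rw [varIdeal, Ideal.map_span, Ideal.span_le]
    rintro _ ⟨_, ⟨i, rfl⟩, rfl⟩
    rw [hX]
    exact Ideal.add_mem _ (Ideal.mul_mem_left _ _ (Ideal.subset_span ⟨0, rfl⟩))
      (Ideal.mul_mem_left _ _ (Ideal.subset_span ⟨1, rfl⟩))
  have h2 := Ideal.mem_map_of_mem φ hf
  rw [Ideal.map_pow] at h2
  exact Ideal.pow_right_mono h1 2 h2

/-- linear part of the image of an element under `φ` -/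
theorem Lin.phi {ι k : Type*} [Fintype ι] [Field k] {α β : ι → k}
    {φ : MvPowerSeries ι k →+* MvPowerSeries (Fin 2) k}
    (hC : ∀ a, φ (MvPowerSeries.C a) = MvPowerSeries.C a)
    (hX : ∀ i, φ (MvPowerSeries.X i) = MvPowerSeries.C (α i) * MvPowerSeries.X 0 +
        MvPowerSeries.C (β i) * MvPowerSeries.X 1) {f : MvPowerSeries ι k} {w : ι → k}
    (hf : f - ∑ i, MvPowerSeries.C (w i) * MvPowerSeries.X i ∈ varIdeal ι k ^ 2) :
    Lin (φ f) (∑ i, w i * α i) (∑ i, w i * β i) := by
  have h1 := Lin.of_sq (phi_sq hX hf)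
  have h2 : Lin (∑ i, MvPowerSeries.C (w i) * φ (MvPowerSeries.X i))
      (∑ i, w i * α i) (∑ i, w i * β i) := by
    refine Lin.sum _ _ _ _ fun i _ => Lin.smul (w i) ?_
    exact ⟨0, 0, 0, by rw [hX]; simp⟩
  have h3 := h1.add h2
  rw [zero_add, zero_add] at h3
  convert h3 using 1
  rw [map_sub, map_sum]
  simp only [map_mul, hC]
  ring

/-- the cubic polynomial -/
noncomputable def cub {R : Type*} [CommRing R] (a b c e : R) : Polynomial R :=
  Polynomial.C a * Polynomial.X ^ 3 + Polynomial.C b * Polynomial.X ^ 2 +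
    Polynomial.C c * Polynomial.X + Polynomial.C e

/-- the residue polynomial -/
noncomputable def res {R : Type*} [CommRing R] (a b c : R) (h : ℕ → R) : Polynomial R :=
  Polynomial.C (h 1 * a) * Polynomial.X ^ 2 + Polynomial.C (h 1 * b + h 2 * a) * Polynomial.X +
    Polynomial.C (h 1 * c + h 2 * b + h 3 * a)

/-- One arc. -/
theorem one_arc {k K : Type*} [Field k] [Field K] [Algebra k K] {T : K}
    (hT : Transcendental k T) {ι : Type*} [Finite ι] (α β : ι → k)
    (φ : MvPowerSeries ι k →+* MvPowerSeries (Fin 2) k)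
    (hφC : ∀ a, φ (MvPowerSeries.C a) = MvPowerSeries.C a)
    (hφX : ∀ i, φ (MvPowerSeries.X i) = MvPowerSeries.C (α i) * MvPowerSeries.X 0 +
        MvPowerSeries.C (β i) * MvPowerSeries.X 1)
    {a b c e : MvPowerSeries ι k} {ε g3 g2 g1 g0 : k} (hε : ε = 0 ∨ ε = 1) (hεg : ε * g3 = 0)
    (hg : g3 ≠ 0 ∨ g2 ≠ 0 ∨ g1 ≠ 0 ∨ g0 ≠ 0)
    (ha : Lin (φ a) g3 (ε * g2)) (hb : Lin (φ b) g2 (ε * g1)) (hc : Lin (φ c) g1 (ε * g0))
    (he : Lin (φ e) g0 0)
    {R H : Polynomial (MvPowerSeries ι k)} {γ2 γ1 γ0 : MvPowerSeries ι k} {j : ℕ}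
    (hH : cub a b c e * H = Polynomial.X ^ (j + 2) * R +
      (Polynomial.C γ2 * Polynomial.X ^ 2 + Polynomial.C γ1 * Polynomial.X + Polynomial.C γ0))
    {n : ℕ} (hn : 2 * n ≤ j + 1) :
    ∃ ev : MvPowerSeries ι k →+* PowerSeries K,
        (∀ a, ev (MvPowerSeries.C a) = PowerSeries.C (algebraMap k K a)) ∧
        (∀ i, (PowerSeries.X : PowerSeries K) ∣ ev (MvPowerSeries.X i)) ∧
        (∀ i, PowerSeries.coeff 1 (ev (MvPowerSeries.X i)) =
          algebraMap k K (β i) - algebraMap k K (α i * ε) * T) ∧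
        (PowerSeries.X : PowerSeries K) ^ n ∣
          Polynomial.eval₂ ev (PowerSeries.C T) (cub a b c e) ∧
        (PowerSeries.X : PowerSeries K) ^ n ∣
          Polynomial.eval₂ ev (PowerSeries.C T) R := by
  classical
  have hG0 : algebraMap k K g3 * T ^ 3 + algebraMap k K g2 * T ^ 2 + algebraMap k K g1 * T +
      algebraMap k K g0 ≠ 0 := by
    intro h2
    have h3 : Polynomial.aeval (R := k) T (Polynomial.C g3 * Polynomial.X ^ 3 +
        Polynomial.C g2 * Polynomial.X ^ 2 + Polynomial.C g1 * Polynomial.X +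
        Polynomial.C g0) = 0 := by
      simpa using h2
    have h4 := (transcendental_iff.mp hT) _ h3
    have c3 := congrArg (fun q => Polynomial.coeff q 3) h4
    have c2 := congrArg (fun q => Polynomial.coeff q 2) h4
    have c1 := congrArg (fun q => Polynomial.coeff q 1) h4
    have c0 := congrArg (fun q => Polynomial.coeff q 0) h4
    simp [Polynomial.coeff_X, Polynomial.coeff_C] at c3 c2 c1 c0
    simp [c3, c2, c1, c0] at hg
  obtain ⟨ev, hC, h1, h0, hΦ⟩ := exists_arc hεg hG0 ha hb hc he n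
  have hX0 : (PowerSeries.X : PowerSeries K) ∣ ev (MvPowerSeries.X 0) := by
    have h2 : (PowerSeries.X : PowerSeries K) ∣ ev (MvPowerSeries.X 0) +
        PowerSeries.C (algebraMap k K ε * T) * PowerSeries.X :=
      dvd_trans (dvd_pow_self _ two_ne_zero) h0
    have h3 : ev (MvPowerSeries.X 0) = (ev (MvPowerSeries.X 0) +
      PowerSeries.C (algebraMap k K ε * T) * PowerSeries.X) -
      PowerSeries.C (algebraMap k K ε * T) * PowerSeries.X := by ring
    rw [h3]
    exact dvd_sub h2 (Dvd.intro_left _ rfl)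
  refine ⟨ev.comp φ, ?_, ?_, ?_, ?_, ?_⟩
  · intro a
    rw [RingHom.comp_apply, hφC, hC]
  · intro i
    rw [RingHom.comp_apply, hφX, map_add, map_mul, map_mul, h1]
    exact dvd_add (Dvd.dvd.mul_left hX0 _) (Dvd.intro_left _ rfl)
  · intro i
    rw [RingHom.comp_apply, hφX, map_add, map_mul, map_mul, h1, hC, hC, map_add,
      PowerSeries.coeff_C_mul, PowerSeries.coeff_C_mul, PowerSeries.coeff_one_X]
    have h6 := (PowerSeries.X_pow_dvd_iff.mp h0) 1 (by norm_num)
    rw [map_add, PowerSeries.coeff_C_mul, PowerSeries.coeff_one_X, mul_one] at h6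
    rw [map_mul]
    linear_combination (algebraMap k K (α i)) * h6
  · have e1 : Polynomial.eval₂ (ev.comp φ) (PowerSeries.C T) (cub a b c e) =
        ev (φ a) * PowerSeries.C T ^ 3 + ev (φ b) * PowerSeries.C T ^ 2 +
          ev (φ c) * PowerSeries.C T + ev (φ e) := by
      simp [cub]
    rw [e1]
    exact (pow_dvd_pow _ (by omega)).trans hΦ
  · have e1 : Polynomial.eval₂ (ev.comp φ) (PowerSeries.C T) (cub a b c e) =
        ev (φ a) * PowerSeries.C T ^ 3 + ev (φ b) * PowerSeries.C T ^ 2 +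
          ev (φ c) * PowerSeries.C T + ev (φ e) := by
      simp [cub]
    set r : PowerSeries K := Polynomial.eval₂ (ev.comp φ) (PowerSeries.C T) R with hrdef
    have hrS : r ∈ SS ev T := ⟨R.map φ, by
      rw [Polynomial.coe_eval₂RingHom, Polynomial.eval₂_map]⟩
    have hH' := congrArg (Polynomial.eval₂RingHom (ev.comp φ) (PowerSeries.C T)) hH
    rw [map_mul, map_add, map_mul, map_pow, Polynomial.coe_eval₂RingHom, e1,
      Polynomial.eval₂_X, ← hrdef] at hH'
    simp only [Polynomial.eval₂_add, Polynomial.eval₂_mul, Polynomial.eval₂_pow,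
      Polynomial.eval₂_X, Polynomial.eval₂_C, RingHom.comp_apply] at hH'
    by_contra hcon
    rw [PowerSeries.X_pow_dvd_iff] at hcon
    push Not at hcon
    obtain ⟨m, ⟨hmn, hm⟩, hmin⟩ : ∃ m, (m < n ∧ PowerSeries.coeff m r ≠ 0) ∧
        ∀ m' < m, ¬ (m' < n ∧ PowerSeries.coeff m' r ≠ 0) :=
      ⟨Nat.find hcon, Nat.find_spec hcon, fun m' hm' => Nat.find_min hcon hm'⟩
    have h7 := two_var hT hC h1 hε h0 hεg hg ha hb hc he (M := n + 2) hΦ hrS hH'
      (n := m) (by omega)
      (PowerSeries.X_pow_dvd_iff.mpr (by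
        intro m' hm'
        by_contra h8
        exact hmin m' hm' ⟨by omega, h8⟩)) hm
    omega

theorem cub_mem {ι k : Type*} [Field k] {a b c e : MvPowerSeries ι k}
    (ha : a ∈ varIdeal ι k ^ 2) (hb : b ∈ varIdeal ι k ^ 2) (hc : c ∈ varIdeal ι k ^ 2)
    (he : e ∈ varIdeal ι k ^ 2) : cub a b c e ∈ mT ι k ^ 2 := by
  have h1 : ∀ x ∈ varIdeal ι k ^ 2, Polynomial.C x ∈ mT ι k ^ 2 := by
    intro x hx
    rw [mT, ← Ideal.map_pow]
    exact Ideal.mem_map_of_mem _ hx
  rw [cub]
  exact Ideal.add_mem _ (Ideal.add_mem _ (Ideal.add_mem _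
    (Ideal.mul_mem_right _ _ (h1 a ha)) (Ideal.mul_mem_right _ _ (h1 b hb)))
    (Ideal.mul_mem_right _ _ (h1 c hc))) (h1 e he)

/-- linear coefficients -/
noncomputable def lc {ι k : Type*} [Field k] (i : ι) (x : MvPowerSeries ι k) : k :=
  MvPowerSeries.coeff (Finsupp.single i 1) x

theorem sub_lin_mem {ι k : Type*} [Fintype ι] [Field k] {x : MvPowerSeries ι k}
    (hx : x ∈ varIdeal ι k) :
    x - ∑ i, MvPowerSeries.C (lc i x) * MvPowerSeries.X i ∈ varIdeal ι k ^ 2 := by
  classical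
  have hx0 : MvPowerSeries.coeff 0 x = 0 := by
    have h1 := (CN.mem_varIdeal_pow_iff 1 x).mp (by rwa [pow_one]) 0 (by simp)
    exact h1
  rw [CN.mem_varIdeal_pow_iff]
  intro d hd
  rw [map_sub, map_sum]
  simp_rw [MvPowerSeries.coeff_C_mul, MvPowerSeries.coeff_X]
  have hd' : d.degree = 0 ∨ d.degree = 1 := by omega
  rcases hd' with hd' | hd'
  · rw [Finsupp.degree_eq_zero_iff] at hd'
    subst hd'
    rw [hx0, Finset.sum_eq_zero, sub_zero]
    intro i _
    rw [if_neg, mul_zero]
    intro h2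
    have := congrArg (fun f => f i) h2
    simp at this
  · obtain ⟨i, rfl⟩ : ∃ i, d = Finsupp.single i 1 := by
      obtain ⟨i, hi⟩ : ∃ i, d i ≠ 0 := by
        by_contra hcon
        push Not at hcon
        have : d = 0 := Finsupp.ext hcon
        subst this
        simp at hd'
      refine ⟨i, ?_⟩
      have hle : Finsupp.single i 1 ≤ d := by
        rw [Finsupp.single_le_iff]
        omega
      have h1 : (d - Finsupp.single i 1) + Finsupp.single i 1 = d := tsub_add_cancel_of_le hle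
      have h2 := congrArg Finsupp.degree h1
      rw [map_add, Finsupp.degree_single, hd'] at h2
      have h3 : d - Finsupp.single i 1 = 0 := by
        rw [← Finsupp.degree_eq_zero_iff]
        omega
      rw [← h1, h3, zero_add]
    rw [Finset.sum_eq_single i]
    · rw [if_pos rfl, mul_one, lc, sub_self]
    · intro j _ hj
      rw [if_neg, mul_zero]
      intro h2
      exact hj (Finsupp.single_left_injective one_ne_zero h2).symm
    · intro h
      exact absurd (Finset.mem_univ i) h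

theorem lc_eq_zero {ι k : Type*} [Finite ι] [Field k] {x : MvPowerSeries ι k}
    (hx : x ∈ varIdeal ι k ^ 2) (i : ι) : lc i x = 0 :=
  (CN.mem_varIdeal_pow_iff 2 x).mp hx _ (by rw [Finsupp.degree_single]; norm_num)

theorem mem_sq_of_lc {ι k : Type*} [Fintype ι] [Field k] {x : MvPowerSeries ι k}
    (hx : x ∈ varIdeal ι k) (h : ∀ i, lc i x = 0) : x ∈ varIdeal ι k ^ 2 := by
  have h1 := sub_lin_mem hx
  simp only [h, map_zero, zero_mul, Finset.sum_const_zero, sub_zero] at h1
  exact h1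

theorem sum_split {ι k : Type*} [Fintype ι] [DecidableEq ι] [CommRing k] (p : ι) (w z : ι → k)
    (y : {i // i ≠ p} → k) (t s : k) (hz : z p = t) (hy : ∀ i : {i // i ≠ p}, z i = s * y i) :
    ∑ i, w i * z i = w p * t + s * ∑ i : {i // i ≠ p}, w i * y i := by
  rw [Fintype.sum_eq_add_sum_subtype_ne _ p, hz, Finset.mul_sum]
  congr 1
  refine Finset.sum_congr rfl fun i _ => ?_
  rw [hy]; ring

/-- Base points of total degree three: `F = x G(T)` modulo `m ^ 2`. -/
theorem base_three {k : Type*} [Field k] [Infinite k] {ι : Type*} [Finite ι]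
    (a b c e x : MvPowerSeries ι k) (g3 g2 g1 g0 : k)
    (hg : g3 ≠ 0 ∨ g2 ≠ 0 ∨ g1 ≠ 0 ∨ g0 ≠ 0) (hx : x ∈ varIdeal ι k)
    (hx2 : x ∉ varIdeal ι k ^ 2)
    (ha : a - MvPowerSeries.C g3 * x ∈ varIdeal ι k ^ 2)
    (hb : b - MvPowerSeries.C g2 * x ∈ varIdeal ι k ^ 2)
    (hc : c - MvPowerSeries.C g1 * x ∈ varIdeal ι k ^ 2)
    (he : e - MvPowerSeries.C g0 * x ∈ varIdeal ι k ^ 2)
    {R H : Polynomial (MvPowerSeries ι k)} {γ2 γ1 γ0 : MvPowerSeries ι k} {j : ℕ}
    (hH : cub a b c e * H = Polynomial.X ^ (j + 2) * R +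
      (Polynomial.C γ2 * Polynomial.X ^ 2 + Polynomial.C γ1 * Polynomial.X + Polynomial.C γ0))
    {n : ℕ} (hn : 2 * n ≤ j + 1) :
    ∃ s : Polynomial k, s ≠ 0 ∧ ∃ f, inc ι k s * R - cub a b c e * f ∈ mT ι k ^ n := by
  classical
  have := Fintype.ofFinite ι
  obtain ⟨p, hp⟩ : ∃ p, lc p x ≠ 0 := by
    by_contra hcon
    push Not at hcon
    exact hx2 (mem_sq_of_lc hx hcon)
  have hxl := sub_lin_mem hx
  set w : ι → k := fun i => lc i x with hw
  have hTr : Transcendental k (algebraMap (Polynomial k) (RatFunc k) Polynomial.X) := by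
    rw [transcendental_algebraMap_iff (IsFractionRing.injective (Polynomial k) (RatFunc k))]
    exact Polynomial.transcendental_X k
  -- linear parts
  have hlin : ∀ (g : k) (y : MvPowerSeries ι k),
      y - MvPowerSeries.C g * x ∈ varIdeal ι k ^ 2 →
      y - ∑ i, MvPowerSeries.C (g * w i) * MvPowerSeries.X i ∈ varIdeal ι k ^ 2 := by
    intro g y hy
    have e1 : y - ∑ i, MvPowerSeries.C (g * w i) * MvPowerSeries.X i =
        (y - MvPowerSeries.C g * x) + MvPowerSeries.C g *
          (x - ∑ i, MvPowerSeries.C (w i) * MvPowerSeries.X i) := by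
      rw [mul_sub, Finset.mul_sum]
      simp only [map_mul, mul_assoc]
      ring
    rw [e1]
    exact Ideal.add_mem _ hy (Ideal.mul_mem_left _ _ hxl)
  refine transfer hTr (cub a b c e) R
    (Polynomial.C g3 * Polynomial.X ^ 3 + Polynomial.C g2 * Polynomial.X ^ 2 +
      Polynomial.C g1 * Polynomial.X + Polynomial.C g0) ?_ (fun i => Polynomial.C (w i)) p
    (by simpa using hp) ?_ 1 one_ne_zero n ?_
  · intro h4
    have c3 := congrArg (fun q => Polynomial.coeff q 3) h4
    have c2 := congrArg (fun q => Polynomial.coeff q 2) h4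
    have c1 := congrArg (fun q => Polynomial.coeff q 1) h4
    have c0 := congrArg (fun q => Polynomial.coeff q 0) h4
    simp [Polynomial.coeff_X, Polynomial.coeff_C] at c3 c2 c1 c0
    simp [c3, c2, c1, c0] at hg
  · have e1 : cub a b c e - inc ι k (Polynomial.C g3 * Polynomial.X ^ 3 +
        Polynomial.C g2 * Polynomial.X ^ 2 + Polynomial.C g1 * Polynomial.X +
        Polynomial.C g0) * ∑ i, inc ι k (Polynomial.C (w i)) * Polynomial.C (MvPowerSeries.X i) =
        cub (a - MvPowerSeries.C g3 * ∑ i, MvPowerSeries.C (w i) * MvPowerSeries.X i)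
          (b - MvPowerSeries.C g2 * ∑ i, MvPowerSeries.C (w i) * MvPowerSeries.X i)
          (c - MvPowerSeries.C g1 * ∑ i, MvPowerSeries.C (w i) * MvPowerSeries.X i)
          (e - MvPowerSeries.C g0 * ∑ i, MvPowerSeries.C (w i) * MvPowerSeries.X i) := by
      have e2 : ∑ i, inc ι k (Polynomial.C (w i)) * Polynomial.C (MvPowerSeries.X i) =
          Polynomial.C (∑ i, MvPowerSeries.C (w i) * MvPowerSeries.X i) := by
        rw [map_sum]
        simp
      rw [e2, cub, cub]
      simp only [Polynomial.coe_mapRingHom, Polynomial.map_add, Polynomial.map_mul,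
        Polynomial.map_pow, Polynomial.map_X, Polynomial.map_C, map_sub, map_mul]
      ring
    rw [e1]
    have hm : ∀ (g : k) (y : MvPowerSeries ι k),
        y - MvPowerSeries.C g * x ∈ varIdeal ι k ^ 2 →
        y - MvPowerSeries.C g * ∑ i, MvPowerSeries.C (w i) * MvPowerSeries.X i ∈
          varIdeal ι k ^ 2 := by
      intro g y hy
      have := hlin g y hy
      rw [Finset.mul_sum]
      simpa only [map_mul, mul_assoc] using this
    exact cub_mem (hm _ _ ha) (hm _ _ hb) (hm _ _ hc) (hm _ _ he)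
  · intro y _
    set α : ι → k := fun i => if i = p then (w p)⁻¹ else 0 with hα
    set β : ι → k := fun i => if hi : i = p then -∑ i' : {i' // i' ≠ p}, w i' * y i'
      else w p * y ⟨i, hi⟩ with hβ
    have hwα : ∑ i, w i * α i = 1 := by
      simp only [hα, mul_ite, mul_zero, Finset.sum_ite_eq', Finset.mem_univ, if_true]
      exact mul_inv_cancel₀ hp
    have hβi : ∀ i : {i // i ≠ p}, β i = w p * y i := by
      intro i
      simp only [hβ]
      rw [dif_neg i.2]
    have hβp : β p = -∑ i' : {i' // i' ≠ p}, w i' * y i' := by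
      simp only [hβ, dif_pos]
    have hwβ : ∑ i, w i * β i = 0 := by
      rw [sum_split p w β y _ _ hβp hβi]
      ring
    obtain ⟨φ, hφC, hφX⟩ := exists_phi α β
    have hL : ∀ (g : k) (y : MvPowerSeries ι k),
        y - MvPowerSeries.C g * x ∈ varIdeal ι k ^ 2 → Lin (φ y) g 0 := by
      intro g y hy
      have h2 := Lin.phi hφC hφX (hlin g y hy)
      have h3 : ∑ i, g * w i * α i = g := by
        simp_rw [mul_assoc]
        rw [← Finset.mul_sum, hwα, mul_one]
      have h4 : ∑ i, g * w i * β i = 0 := by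
        simp_rw [mul_assoc]
        rw [← Finset.mul_sum, hwβ, mul_zero]
      rwa [h3, h4] at h2
    obtain ⟨ev, h1, h2, h3, h4, h5⟩ := one_arc hTr α β φ hφC hφX (Or.inl rfl) (zero_mul g3) hg
      (by rw [zero_mul]; exact hL _ _ ha) (by rw [zero_mul]; exact hL _ _ hb)
      (by rw [zero_mul]; exact hL _ _ hc) (hL _ _ he) hH hn
    refine ⟨ev, h1, h2, ?_, h4, h5⟩
    intro i
    rw [h3, hβi]
    simp

/-- Base points of total degree at least two: `F = G(T) (U T + V)` modulo `m ^ 2`. -/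
theorem base_two {k : Type*} [Field k] [Infinite k] {ι : Type*} [Finite ι]
    (a b c e U V : MvPowerSeries ι k) (g2 g1 g0 : k)
    (hg : g2 ≠ 0 ∨ g1 ≠ 0 ∨ g0 ≠ 0) (hU : U ∈ varIdeal ι k) (hV : V ∈ varIdeal ι k)
    (hUV : U ∉ varIdeal ι k ^ 2 ∨ V ∉ varIdeal ι k ^ 2)
    (ha : a - MvPowerSeries.C g2 * U ∈ varIdeal ι k ^ 2)
    (hb : b - (MvPowerSeries.C g2 * V + MvPowerSeries.C g1 * U) ∈ varIdeal ι k ^ 2)
    (hc : c - (MvPowerSeries.C g1 * V + MvPowerSeries.C g0 * U) ∈ varIdeal ι k ^ 2)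
    (he : e - MvPowerSeries.C g0 * V ∈ varIdeal ι k ^ 2)
    {R H : Polynomial (MvPowerSeries ι k)} {γ2 γ1 γ0 : MvPowerSeries ι k} {j : ℕ}
    (hH : cub a b c e * H = Polynomial.X ^ (j + 2) * R +
      (Polynomial.C γ2 * Polynomial.X ^ 2 + Polynomial.C γ1 * Polynomial.X + Polynomial.C γ0))
    {n : ℕ} (hn : 2 * n ≤ j + 1) :
    ∃ s : Polynomial k, s ≠ 0 ∧ ∃ f, inc ι k s * R - cub a b c e * f ∈ mT ι k ^ n := by
  classical
  have := Fintype.ofFinite ι
  by_cases hU2 : U ∈ varIdeal ι k ^ 2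
  · have hV2 : V ∉ varIdeal ι k ^ 2 := hUV.resolve_left (fun h => h hU2)
    refine base_three a b c e V 0 g2 g1 g0 (Or.inr hg) hV hV2 ?_ ?_ ?_ he hH hn
    · have e1 : a - MvPowerSeries.C 0 * V = (a - MvPowerSeries.C g2 * U) +
          MvPowerSeries.C g2 * U := by rw [map_zero]; ring
      rw [e1]
      exact Ideal.add_mem _ ha (Ideal.mul_mem_left _ _ hU2)
    · have e1 : b - MvPowerSeries.C g2 * V = (b - (MvPowerSeries.C g2 * V +
          MvPowerSeries.C g1 * U)) + MvPowerSeries.C g1 * U := by ring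
      rw [e1]
      exact Ideal.add_mem _ hb (Ideal.mul_mem_left _ _ hU2)
    · have e1 : c - MvPowerSeries.C g1 * V = (c - (MvPowerSeries.C g1 * V +
          MvPowerSeries.C g0 * U)) + MvPowerSeries.C g0 * U := by ring
      rw [e1]
      exact Ideal.add_mem _ hc (Ideal.mul_mem_left _ _ hU2)
  obtain ⟨p, hp⟩ : ∃ p, lc p U ≠ 0 := by
    by_contra hcon
    push Not at hcon
    exact hU2 (mem_sq_of_lc hU hcon)
  have hUl := sub_lin_mem hU
  have hVl := sub_lin_mem hV
  set u : ι → k := fun i => lc i U with hu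
  set v : ι → k := fun i => lc i V with hv
  by_cases hmin : ∀ i, v p * u i - u p * v i = 0
  · -- `V = t U` modulo `m ^ 2`
    have hVU : V - MvPowerSeries.C (v p / u p) * U ∈ varIdeal ι k ^ 2 := by
      refine mem_sq_of_lc (Ideal.sub_mem _ hV (Ideal.mul_mem_left _ _ hU)) fun i => ?_
      have h1 : lc i (V - MvPowerSeries.C (v p / u p) * U) = v i - (v p / u p) * u i := by
        rw [lc, map_sub, MvPowerSeries.coeff_C_mul]
        rfl
      rw [h1]
      have h2 := hmin i
      have h3 : u p ≠ 0 := hp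
      field_simp
      linear_combination -h2
    set t := v p / u p with ht
    refine base_three a b c e U g2 (g2 * t + g1) (g1 * t + g0) (g0 * t) ?_ hU hU2 ha ?_ ?_ ?_
      hH hn
    · by_contra hcon
      push Not at hcon
      obtain ⟨h1, h2, h3, h4⟩ := hcon
      rw [h1, zero_mul, zero_add] at h2
      rw [h2, zero_mul, zero_add] at h3
      simp [h1, h2, h3] at hg
    · have e1 : b - MvPowerSeries.C (g2 * t + g1) * U = (b - (MvPowerSeries.C g2 * V +
          MvPowerSeries.C g1 * U)) + MvPowerSeries.C g2 * (V - MvPowerSeries.C t * U) := by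
        rw [map_add, map_mul]; ring
      rw [e1]
      exact Ideal.add_mem _ hb (Ideal.mul_mem_left _ _ hVU)
    · have e1 : c - MvPowerSeries.C (g1 * t + g0) * U = (c - (MvPowerSeries.C g1 * V +
          MvPowerSeries.C g0 * U)) + MvPowerSeries.C g1 * (V - MvPowerSeries.C t * U) := by
        rw [map_add, map_mul]; ring
      rw [e1]
      exact Ideal.add_mem _ hc (Ideal.mul_mem_left _ _ hVU)
    · have e1 : e - MvPowerSeries.C (g0 * t) * U = (e - MvPowerSeries.C g0 * V) +
          MvPowerSeries.C g0 * (V - MvPowerSeries.C t * U) := by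
        rw [map_mul]; ring
      rw [e1]
      exact Ideal.add_mem _ he (Ideal.mul_mem_left _ _ hVU)
  push Not at hmin
  obtain ⟨i0, hi0⟩ := hmin
  have hi0p : i0 ≠ p := by
    rintro rfl
    apply hi0
    ring
  have hTr : Transcendental k (algebraMap (Polynomial k) (RatFunc k) Polynomial.X) := by
    rw [transcendental_algebraMap_iff (IsFractionRing.injective (Polynomial k) (RatFunc k))]
    exact Polynomial.transcendental_X k
  set D : MvPolynomial {i // i ≠ p} k := ∑ i : {i // i ≠ p},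
    MvPolynomial.C (v p * u i - u p * v i) * MvPolynomial.X i with hD
  have hDy : ∀ y, MvPolynomial.eval y D = ∑ i : {i // i ≠ p}, (v p * u i - u p * v i) * y i := by
    intro y
    rw [hD, map_sum]
    simp
  have hD0 : D ≠ 0 := by
    intro h0
    have h1 := hDy (Pi.single ⟨i0, hi0p⟩ 1)
    rw [h0, map_zero, Finset.sum_eq_single ⟨i0, hi0p⟩] at h1
    · rw [Pi.single_eq_same, mul_one] at h1
      exact hi0 h1.symm
    · intro j _ hj
      rw [Pi.single_eq_of_ne hj, mul_zero]
    · intro h2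
      exact absurd (Finset.mem_univ _) h2
  set U' : MvPowerSeries ι k := ∑ i, MvPowerSeries.C (u i) * MvPowerSeries.X i with hU'
  set V' : MvPowerSeries ι k := ∑ i, MvPowerSeries.C (v i) * MvPowerSeries.X i with hV'
  refine transfer hTr (cub a b c e) R
    (Polynomial.C g2 * Polynomial.X ^ 2 + Polynomial.C g1 * Polynomial.X + Polynomial.C g0) ?_
    (fun i => Polynomial.C (u i) * Polynomial.X + Polynomial.C (v i)) p ?_ ?_ D hD0 n ?_
  · intro h4
    have c2 := congrArg (fun q => Polynomial.coeff q 2) h4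
    have c1 := congrArg (fun q => Polynomial.coeff q 1) h4
    have c0 := congrArg (fun q => Polynomial.coeff q 0) h4
    simp [Polynomial.coeff_X, Polynomial.coeff_C] at c2 c1 c0
    simp [c2, c1, c0] at hg
  · intro h4
    have c1 := congrArg (fun q => Polynomial.coeff q 1) h4
    simp [Polynomial.coeff_C] at c1
    exact hp c1
  · have e1 : cub a b c e - inc ι k (Polynomial.C g2 * Polynomial.X ^ 2 +
        Polynomial.C g1 * Polynomial.X + Polynomial.C g0) *
        ∑ i, inc ι k (Polynomial.C (u i) * Polynomial.X + Polynomial.C (v i)) *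
          Polynomial.C (MvPowerSeries.X i) =
        cub (a - MvPowerSeries.C g2 * U')
          (b - (MvPowerSeries.C g2 * V' + MvPowerSeries.C g1 * U'))
          (c - (MvPowerSeries.C g1 * V' + MvPowerSeries.C g0 * U'))
          (e - MvPowerSeries.C g0 * V') := by
      have e2 : ∑ i, inc ι k (Polynomial.C (u i) * Polynomial.X + Polynomial.C (v i)) *
          Polynomial.C (MvPowerSeries.X i) =
          Polynomial.C U' * Polynomial.X + Polynomial.C V' := by
        rw [hU', hV', map_sum, map_sum, Finset.sum_mul, ← Finset.sum_add_distrib]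
        refine Finset.sum_congr rfl fun i _ => ?_
        simp only [Polynomial.coe_mapRingHom, Polynomial.map_add, Polynomial.map_mul,
          Polynomial.map_X, Polynomial.map_C, map_mul]
        ring
      rw [e2, cub, cub]
      simp only [Polynomial.coe_mapRingHom, Polynomial.map_pow, Polynomial.map_X,
        Polynomial.map_C, map_sub, map_mul, map_add]
      ring
    rw [e1]
    refine cub_mem ?_ ?_ ?_ ?_
    · have e2 : a - MvPowerSeries.C g2 * U' = (a - MvPowerSeries.C g2 * U) +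
          MvPowerSeries.C g2 * (U - U') := by ring
      rw [e2]
      exact Ideal.add_mem _ ha (Ideal.mul_mem_left _ _ hUl)
    · have e2 : b - (MvPowerSeries.C g2 * V' + MvPowerSeries.C g1 * U') =
          (b - (MvPowerSeries.C g2 * V + MvPowerSeries.C g1 * U)) +
          MvPowerSeries.C g2 * (V - V') + MvPowerSeries.C g1 * (U - U') := by ring
      rw [e2]
      exact Ideal.add_mem _ (Ideal.add_mem _ hb (Ideal.mul_mem_left _ _ hVl))
        (Ideal.mul_mem_left _ _ hUl)
    · have e2 : c - (MvPowerSeries.C g1 * V' + MvPowerSeries.C g0 * U') =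
          (c - (MvPowerSeries.C g1 * V + MvPowerSeries.C g0 * U)) +
          MvPowerSeries.C g1 * (V - V') + MvPowerSeries.C g0 * (U - U') := by ring
      rw [e2]
      exact Ideal.add_mem _ (Ideal.add_mem _ hc (Ideal.mul_mem_left _ _ hVl))
        (Ideal.mul_mem_left _ _ hUl)
    · have e2 : e - MvPowerSeries.C g0 * V' = (e - MvPowerSeries.C g0 * V) +
          MvPowerSeries.C g0 * (V - V') := by ring
      rw [e2]
      exact Ideal.add_mem _ he (Ideal.mul_mem_left _ _ hVl)
  · intro y hy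
    set D0 : k := MvPolynomial.eval y D with hD0def
    set α : ι → k := fun i => if hi : i = p then ∑ i' : {i' // i' ≠ p}, u i' * y i'
      else (-u p) * y ⟨i, hi⟩ with hα
    set β : ι → k := fun i => if hi : i = p then -∑ i' : {i' // i' ≠ p}, v i' * y i'
      else v p * y ⟨i, hi⟩ with hβ
    have hαi : ∀ i : {i // i ≠ p}, α i = (-u p) * y i := by
      intro i
      simp only [hα]
      rw [dif_neg i.2]
    have hβi : ∀ i : {i // i ≠ p}, β i = v p * y i := by
      intro i
      simp only [hβ]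
      rw [dif_neg i.2]
    have hαp : α p = ∑ i' : {i' // i' ≠ p}, u i' * y i' := by simp only [hα, dif_pos]
    have hβp : β p = -∑ i' : {i' // i' ≠ p}, v i' * y i' := by simp only [hβ, dif_pos]
    have hDexp : D0 = v p * (∑ i : {i // i ≠ p}, u i * y i) -
        u p * (∑ i : {i // i ≠ p}, v i * y i) := by
      rw [hD0def, hDy, Finset.mul_sum, Finset.mul_sum, ← Finset.sum_sub_distrib]
      refine Finset.sum_congr rfl fun i _ => ?_
      ring
    have huα : ∑ i, u i * α i = 0 := by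
      rw [sum_split p u α y _ _ hαp hαi]; ring
    have hvα : ∑ i, v i * α i = D0 := by
      rw [sum_split p v α y _ _ hαp hαi, hDexp]; ring
    have huβ : ∑ i, u i * β i = D0 := by
      rw [sum_split p u β y _ _ hβp hβi, hDexp]; ring
    have hvβ : ∑ i, v i * β i = 0 := by
      rw [sum_split p v β y _ _ hβp hβi]; ring
    obtain ⟨φ, hφC, hφX⟩ := exists_phi α β
    have hLU : Lin (φ U) 0 D0 := by
      have h2 := Lin.phi hφC hφX hUl
      rwa [huα, huβ] at h2
    have hLV : Lin (φ V) D0 0 := by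
      have h2 := Lin.phi hφC hφX hVl
      rwa [hvα, hvβ] at h2
    have hLa : Lin (φ a) 0 (1 * (D0 * g2)) := by
      have h2 := (Lin.of_sq (phi_sq hφX ha)).add (hLU.smul g2)
      rw [map_sub, map_mul, hφC] at h2
      convert h2 using 1 <;> ring
    have hLb : Lin (φ b) (D0 * g2) (1 * (D0 * g1)) := by
      have h2 := (Lin.of_sq (phi_sq hφX hb)).add ((hLV.smul g2).add (hLU.smul g1))
      rw [map_sub, map_add, map_mul, map_mul, hφC, hφC] at h2
      convert h2 using 1 <;> ring
    have hLc : Lin (φ c) (D0 * g1) (1 * (D0 * g0)) := by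
      have h2 := (Lin.of_sq (phi_sq hφX hc)).add ((hLV.smul g1).add (hLU.smul g0))
      rw [map_sub, map_add, map_mul, map_mul, hφC, hφC] at h2
      convert h2 using 1 <;> ring
    have hLe : Lin (φ e) (D0 * g0) 0 := by
      have h2 := (Lin.of_sq (phi_sq hφX he)).add (hLV.smul g0)
      rw [map_sub, map_mul, hφC] at h2
      convert h2 using 1 <;> ring
    have hg' : (0 : k) ≠ 0 ∨ D0 * g2 ≠ 0 ∨ D0 * g1 ≠ 0 ∨ D0 * g0 ≠ 0 := by
      rcases hg with hg | hg | hg
      · exact Or.inr (Or.inl (mul_ne_zero hy hg))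
      · exact Or.inr (Or.inr (Or.inl (mul_ne_zero hy hg)))
      · exact Or.inr (Or.inr (Or.inr (mul_ne_zero hy hg)))
    obtain ⟨ev, h1, h2, h3, h4, h5⟩ := one_arc hTr α β φ hφC hφX (Or.inr rfl) (mul_zero 1) hg'
      hLa hLb hLc hLe hH hn
    refine ⟨ev, h1, h2, ?_, h4, h5⟩
    intro i
    rw [h3, hβi, hαi]
    simp only [map_add, map_mul, Polynomial.aeval_C, Polynomial.aeval_X, map_neg, map_one]
    ring

open IsLocalRing in
/-- The conclusion in terms of coefficients and of the maximal ideal. -/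
theorem s_condition {k : Type*} [Field k] {ι : Type*} [Finite ι]
    {F r : Polynomial (MvPowerSeries ι k)} {n : ℕ}
    (h : ∃ s : Polynomial k, s ≠ 0 ∧ ∃ f, inc ι k s * r - F * f ∈ mT ι k ^ n) :
    ∃ s f : Polynomial (MvPowerSeries ι k),
      (∃ i, s.coeff i ∉ maximalIdeal (MvPowerSeries ι k)) ∧
      ∀ i, (s * r - F * f).coeff i ∈ maximalIdeal (MvPowerSeries ι k) ^ n := by
  obtain ⟨s, hs, f, hf⟩ := h
  refine ⟨inc ι k s, f, ?_, ?_⟩
  · obtain ⟨i, hi⟩ : ∃ i, s.coeff i ≠ 0 := by
      by_contra hcon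
      push Not at hcon
      exact hs (Polynomial.ext (by simpa using hcon))
    refine ⟨i, ?_⟩
    rw [Polynomial.coe_mapRingHom, Polynomial.coeff_map, mem_maximalIdeal, mem_nonunits_iff,
      not_not]
    exact (isUnit_iff_ne_zero.mpr hi).map MvPowerSeries.C
  · rw [mT, ← Ideal.map_pow, Ideal.mem_map_C_iff] at hf
    rw [CN.maximalIdeal_mvPowerSeries]
    exact hf

/-- The recurrences, packed in one polynomial identity. -/
theorem rec_cub {ι k : Type*} [Field k] (a b c e : MvPowerSeries ι k)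
    (h : ℕ → MvPowerSeries ι k) (N : ℕ) (hrec : ∀ j, 1 ≤ j → j ≤ N →
      e * h j + c * h (j + 1) + b * h (j + 2) + a * h (j + 3) = 0) :
    ∃ (H : Polynomial (MvPowerSeries ι k)) (γ2 γ1 γ0 : MvPowerSeries ι k),
      cub a b c e * H = Polynomial.X ^ (N + 1 + 2) * res a b c h +
      (Polynomial.C γ2 * Polynomial.X ^ 2 + Polynomial.C γ1 * Polynomial.X +
        Polynomial.C γ0) := by
  obtain ⟨H, hH⟩ := rec_identity (Polynomial.C a) (Polynomial.C b) (Polynomial.C c)
    (Polynomial.C e) Polynomial.X (fun j => Polynomial.C (h j)) N (by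
      intro j hj hjN
      have := congrArg Polynomial.C (hrec j hj hjN)
      simpa only [map_add, map_mul, map_zero] using this)
  refine ⟨H, e * h (N + 1) + c * h (N + 2) + b * h (N + 3), e * h (N + 2) + c * h (N + 3),
    e * h (N + 3), ?_⟩
  rw [cub, hH, res]
  simp only [map_add, map_mul]

open IsLocalRing in
/-- Base points of total degree three (block (B), case `ρ = 1`): `F = x G(T)` modulo `m ^ 2`. -/
theorem pole_three {k : Type*} [Field k] [Infinite k] {ι : Type*} [Finite ι]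
    (a b c e x : MvPowerSeries ι k) (g3 g2 g1 g0 : k)
    (hg : g3 ≠ 0 ∨ g2 ≠ 0 ∨ g1 ≠ 0 ∨ g0 ≠ 0) (hx : x ∈ maximalIdeal (MvPowerSeries ι k))
    (hx2 : x ∉ maximalIdeal (MvPowerSeries ι k) ^ 2)
    (ha : a - MvPowerSeries.C g3 * x ∈ maximalIdeal (MvPowerSeries ι k) ^ 2)
    (hb : b - MvPowerSeries.C g2 * x ∈ maximalIdeal (MvPowerSeries ι k) ^ 2)
    (hc : c - MvPowerSeries.C g1 * x ∈ maximalIdeal (MvPowerSeries ι k) ^ 2)
    (he : e - MvPowerSeries.C g0 * x ∈ maximalIdeal (MvPowerSeries ι k) ^ 2)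
    (h : ℕ → MvPowerSeries ι k) (N : ℕ) (hrec : ∀ j, 1 ≤ j → j ≤ N →
      e * h j + c * h (j + 1) + b * h (j + 2) + a * h (j + 3) = 0) {n : ℕ} (hn : 2 * n ≤ N + 2) :
    ∃ s f : Polynomial (MvPowerSeries ι k),
      (∃ i, s.coeff i ∉ maximalIdeal (MvPowerSeries ι k)) ∧
      ∀ i, (s * res a b c h - cub a b c e * f).coeff i ∈
        maximalIdeal (MvPowerSeries ι k) ^ n := by
  rw [CN.maximalIdeal_mvPowerSeries] at *
  obtain ⟨H, γ2, γ1, γ0, hH⟩ := rec_cub a b c e h N hrec
  have := s_condition (base_three a b c e x g3 g2 g1 g0 hg hx hx2 ha hb hc he hH (n := n)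
    (by omega))
  rwa [CN.maximalIdeal_mvPowerSeries] at this

open IsLocalRing in
/-- Base points of total degree at least two (block (B)): `F = G(T) (U T + V)` modulo `m ^ 2`. -/
theorem pole_two {k : Type*} [Field k] [Infinite k] {ι : Type*} [Finite ι]
    (a b c e U V : MvPowerSeries ι k) (g2 g1 g0 : k)
    (hg : g2 ≠ 0 ∨ g1 ≠ 0 ∨ g0 ≠ 0) (hU : U ∈ maximalIdeal (MvPowerSeries ι k))
    (hV : V ∈ maximalIdeal (MvPowerSeries ι k))
    (hUV : U ∉ maximalIdeal (MvPowerSeries ι k) ^ 2 ∨ V ∉ maximalIdeal (MvPowerSeries ι k) ^ 2)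
    (ha : a - MvPowerSeries.C g2 * U ∈ maximalIdeal (MvPowerSeries ι k) ^ 2)
    (hb : b - (MvPowerSeries.C g2 * V + MvPowerSeries.C g1 * U) ∈
      maximalIdeal (MvPowerSeries ι k) ^ 2)
    (hc : c - (MvPowerSeries.C g1 * V + MvPowerSeries.C g0 * U) ∈
      maximalIdeal (MvPowerSeries ι k) ^ 2)
    (he : e - MvPowerSeries.C g0 * V ∈ maximalIdeal (MvPowerSeries ι k) ^ 2)
    (h : ℕ → MvPowerSeries ι k) (N : ℕ) (hrec : ∀ j, 1 ≤ j → j ≤ N →
      e * h j + c * h (j + 1) + b * h (j + 2) + a * h (j + 3) = 0) {n : ℕ} (hn : 2 * n ≤ N + 2) :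
    ∃ s f : Polynomial (MvPowerSeries ι k),
      (∃ i, s.coeff i ∉ maximalIdeal (MvPowerSeries ι k)) ∧
      ∀ i, (s * res a b c h - cub a b c e * f).coeff i ∈
        maximalIdeal (MvPowerSeries ι k) ^ n := by
  rw [CN.maximalIdeal_mvPowerSeries] at *
  obtain ⟨H, γ2, γ1, γ0, hH⟩ := rec_cub a b c e h N hrec
  have := s_condition (base_two a b c e U V g2 g1 g0 hg hU hV hUV ha hb hc he hH (n := n)
    (by omega))
  rwa [CN.maximalIdeal_mvPowerSeries] at this

end Pool.Agent.Lib_helper77.FB
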