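import Pool.Agent.Lib_helper77.FB.Main
import Pool.Agent.WFT.Stmts

/-!
POLE (the case where the linear part of `F` has a factor of degree at least two over `k`).
-/

namespace Pool.Agent.Lib_helper77.FB

open IsLocalRing Pool.Agent.WFT

theorem coeff_cubic {k : Type*} [Field k] (p3 p2 p1 p0 : k) :
    (Polynomial.C p3 * Polynomial.X ^ 3 + Polynomial.C p2 * Polynomial.X ^ 2 +
      Polynomial.C p1 * Polynomial.X + Polynomial.C p0).coeff 3 = p3 ∧
    (Polynomial.C p3 * Polynomial.X ^ 3 + Polynomial.C p2 * Polynomial.X ^ 2 +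
      Polynomial.C p1 * Polynomial.X + Polynomial.C p0).coeff 2 = p2 ∧
    (Polynomial.C p3 * Polynomial.X ^ 3 + Polynomial.C p2 * Polynomial.X ^ 2 +
      Polynomial.C p1 * Polynomial.X + Polynomial.C p0).coeff 1 = p1 ∧
    (Polynomial.C p3 * Polynomial.X ^ 3 + Polynomial.C p2 * Polynomial.X ^ 2 +
      Polynomial.C p1 * Polynomial.X + Polynomial.C p0).coeff 0 = p0 := by
  simp [Polynomial.coeff_X, Polynomial.coeff_C]

theorem stmtPole : StmtPole := by
  classical
  intro d k T L _ _ _ _ _ _ _ _ _ _ _ _ _ _ _ hd S θ hθ hprime hker ha hb hc hdd ℓ hℓ G g hG0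
    hGdeg hgdeg hlin _ hgne r hr j hrT hrθT
  -- basic facts
  set ιL : PS d k →+* L := algebraMap (PS d k) L with hιL
  have hscal : ∀ x : PS d k, algebraMap T L (algebraMap (PS d k) T x) = ιL x := fun x =>
    (IsScalarTower.algebraMap_apply (PS d k) T L x).symm
  have hTL : Function.Injective (algebraMap T L) := IsFractionRing.injective T L
  have hAT : Function.Injective (algebraMap (PS d k) T) := by
    rw [injective_iff_map_eq_zero]
    intro x hx
    have h1 := S.indep ![x, 0, 0] (by simp [hx])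
    exact congrFun h1 0
  have hα0 : S.α ≠ 0 := by
    intro h0
    have h1 := S.indep ![0, 1, 0] (by simp [h0])
    exact one_ne_zero (congrFun h1 1)
  have hβ0 : S.β ≠ 0 := by
    intro h0
    have h1 := S.indep ![0, 0, 1] (by simp [h0])
    exact one_ne_zero (congrFun h1 2)
  have ha0 : S.a ≠ 0 := by
    intro h0
    have h1 := S.αβ
    rw [h0, zero_mul, map_zero, neg_zero, mul_eq_zero] at h1
    rcases h1 with h1 | h1
    · exact hα0 h1
    · exact hβ0 h1
  have haL : ιL S.a ≠ 0 := by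
    rw [← hscal]
    intro h0
    rw [map_eq_zero_iff _ hTL, map_eq_zero_iff _ hAT] at h0
    exact ha0 h0
  set α : L := algebraMap T L S.α with hα
  set β : L := algebraMap T L S.β with hβ
  have hθα : θ * α = ιL S.a := by
    have := hθ
    rw [IsTheta, hscal] at this
    exact this
  have hθ0 : θ ≠ 0 := by
    rintro rfl
    rw [zero_mul] at hθα
    exact haL hθα.symm
  have hsmul : ∀ (x : PS d k) (t : T), algebraMap T L (x • t) = ιL x * algebraMap T L t := by
    intro x t
    rw [Algebra.smul_def, map_mul, hscal]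
  have hαβ : α * β = - (ιL S.a * ιL S.d) := by
    rw [hα, hβ, ← map_mul, S.αβ, map_neg, hscal, map_mul]
  have hαα : α * α = - (ιL S.a * ιL S.c) - ιL S.b * α + ιL S.a * β := by
    rw [hα, hβ, ← map_mul, S.αα, map_add, map_sub, map_neg, hscal, hsmul, hsmul, map_mul]
  have hβθ : β = - (ιL S.d * θ) := by
    have h1 : ιL S.a * β = ιL S.a * (- (ιL S.d * θ)) := by
      linear_combination θ * hαβ - β * hθα
    exact mul_left_cancel₀ haL h1
  have hθβ : θ ^ 2 * β = ιL S.a + ιL S.b * θ + ιL S.c * θ ^ 2 := by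
    have h1 : ιL S.a * (θ ^ 2 * β) = ιL S.a * (ιL S.a + ιL S.b * θ + ιL S.c * θ ^ 2) := by
      linear_combination (-(θ ^ 2)) * hαα + (θ * α + ιL S.a + ιL S.b * θ) * hθα
    exact mul_left_cancel₀ haL h1
  have hαpol : α = - (ιL S.b + ιL S.c * θ + ιL S.d * θ ^ 2) := by
    have h1 : θ * α = θ * (- (ιL S.b + ιL S.c * θ + ιL S.d * θ ^ 2)) := by
      rw [hθα]
      linear_combination (-1 : L) * hθβ + θ ^ 2 * hβθ
    exact mul_left_cancel₀ hθ0 h1
  -- `r` and `r θ ^ j` in coordinates
  obtain ⟨t, ht⟩ := hrT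
  obtain ⟨t', ht'⟩ := hrθT
  obtain ⟨x, hx⟩ := S.repr t
  obtain ⟨y, hy⟩ := S.repr t'
  have hr1 : r = ιL (x 0) + ιL (x 1) * α + ιL (x 2) * β := by
    rw [← ht, hx, map_add, map_add, hscal, hsmul, hsmul]
  have hr2 : r * θ ^ j = ιL (y 0) + ιL (y 1) * α + ιL (y 2) * β := by
    rw [← ht', hy, map_add, map_add, hscal, hsmul, hsmul]
  set R : Polynomial (PS d k) := Polynomial.C (x 0) -
    Polynomial.C (x 1) * (Polynomial.C S.b + Polynomial.C S.c * Polynomial.X +
      Polynomial.C S.d * Polynomial.X ^ 2) - Polynomial.C (x 2) * Polynomial.C S.d *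
      Polynomial.X with hR
  have hRθ : Polynomial.aeval θ R = r := by
    rw [hR, hr1, hαpol, hβθ]
    simp only [map_sub, map_add, map_mul, map_pow, Polynomial.aeval_C, Polynomial.aeval_X]
    ring
  -- the identity `F H = X ^ (j + 2) R + g`
  set γ2 : PS d k := -(y 0 + y 2 * S.c) with hγ2
  set γ1 : PS d k := -(y 1 * S.a + y 2 * S.b) with hγ1
  set γ0 : PS d k := -(y 2 * S.a) with hγ0
  have hmem : Polynomial.aeval θ (Polynomial.X ^ (j + 2) * R +
      (Polynomial.C γ2 * Polynomial.X ^ 2 + Polynomial.C γ1 * Polynomial.X +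
        Polynomial.C γ0)) = 0 := by
    rw [map_add, map_mul, hRθ]
    simp only [hγ2, hγ1, hγ0, map_add, map_mul, map_pow, map_neg, Polynomial.aeval_C,
      Polynomial.aeval_X]
    linear_combination θ ^ 2 * hr2 + (ιL (y 1) * θ) * hθα + ιL (y 2) * hθβ
  obtain ⟨H, hH⟩ := hker _ hmem
  have hF : S.F = cub S.d S.c S.b S.a := by
    rw [Cubic.F, cub]; ring
  rw [hF] at hH
  have hOrd : ∀ n : ℕ, (∃ s : Polynomial k, s ≠ 0 ∧
      ∃ f, inc (Fin d) k s * R - cub S.d S.c S.b S.a * f ∈ mT (Fin d) k ^ n) →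
      OrdGe (A := PS d k) θ r n := by
    intro n hn
    obtain ⟨s, f, hs, hsf⟩ := s_condition hn
    refine ⟨s, s * R - cub S.d S.c S.b S.a * f, hs, hsf, ?_⟩
    have hF0 : Polynomial.aeval θ (cub S.d S.c S.b S.a) = 0 := by
      rw [cub]
      simp only [map_add, map_mul, map_pow, Polynomial.aeval_C, Polynomial.aeval_X]
      linear_combination θ ^ 2 * hβθ - hθβ
    rw [map_sub, map_mul, map_mul, hF0, hRθ, zero_mul, sub_zero]
  refine ⟨(j + 1) / 2, by omega, hOrd _ ?_⟩
  -- the linear parts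
  rw [CN.maximalIdeal_mvPowerSeries] at ha hb hc hdd
  have hX : ∀ i : Fin d, (MvPowerSeries.X i : PS d k) ∈ CN.varIdeal (Fin d) k :=
    fun i => Ideal.subset_span ⟨i, rfl⟩
  have hlin0 : ∀ w : Fin d → k, (∑ i, MvPowerSeries.C (w i) * MvPowerSeries.X i : PS d k) ∈
      CN.varIdeal (Fin d) k := fun w =>
    Ideal.sum_mem _ fun i _ => Ideal.mul_mem_left _ _ (hX i)
  have hlc : ∀ (w : Fin d → k) (i : Fin d),
      lc i (∑ i, MvPowerSeries.C (w i) * MvPowerSeries.X i : PS d k) = w i := by
    intro w i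
    rw [lc, map_sum, Finset.sum_eq_single i]
    · rw [MvPowerSeries.coeff_C_mul, MvPowerSeries.coeff_X, if_pos rfl, mul_one]
    · intro j _ hj
      rw [MvPowerSeries.coeff_C_mul, MvPowerSeries.coeff_X, if_neg, mul_zero]
      intro h2
      exact hj (Finsupp.single_left_injective one_ne_zero h2).symm
    · intro h
      exact absurd (Finset.mem_univ i) h
  have hlca : ∀ i, lc i S.a = (G * g i).coeff 0 := by
    intro i
    rw [← hlin i, linPoly]
    simp [lc, linc]
  have hlcb : ∀ i, lc i S.b = (G * g i).coeff 1 := by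
    intro i
    rw [← hlin i, linPoly]
    simp [Polynomial.coeff_C, lc, linc]
  have hlcc : ∀ i, lc i S.c = (G * g i).coeff 2 := by
    intro i
    rw [← hlin i, linPoly]
    simp [lc, linc]
  have hlcd : ∀ i, lc i S.d = (G * g i).coeff 3 := by
    intro i
    rw [← hlin i, linPoly]
    simp [lc, linc]
  have hlcC : ∀ (z : k) (x : PS d k) (i : Fin d), lc i (MvPowerSeries.C z * x) = z * lc i x := by
    intro z x i
    rw [lc, MvPowerSeries.coeff_C_mul]
    rfl
  have hlcsub : ∀ (x y : PS d k) (i : Fin d), lc i (x - y) = lc i x - lc i y := by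
    intro x y i
    rw [lc, map_sub]
    rfl
  have hlcadd : ∀ (x y : PS d k) (i : Fin d), lc i (x + y) = lc i x + lc i y := by
    intro x y i
    rw [lc, map_add]
    rfl
  rcases hℓ with rfl | rfl
  · -- `ℓ = 2`
    have hgform : ∀ i, g i = Polynomial.C ((g i).coeff 1) * Polynomial.X +
        Polynomial.C ((g i).coeff 0) := fun i =>
      Polynomial.eq_X_add_C_of_natDegree_le_one (hgdeg i)
    have hGform : G = Polynomial.C (G.coeff 2) * Polynomial.X ^ 2 +
        Polynomial.C (G.coeff 1) * Polynomial.X + Polynomial.C (G.coeff 0) := by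
      ext n
      simp only [Polynomial.coeff_add, Polynomial.coeff_C_mul, Polynomial.coeff_X_pow,
        Polynomial.coeff_X, Polynomial.coeff_C]
      rcases Nat.lt_or_ge n 3 with hn | hn
      · interval_cases n <;> simp
      · rw [Polynomial.coeff_eq_zero_of_natDegree_lt (by omega), if_neg (by omega),
          if_neg (by omega), if_neg (by omega)]
        simp
    have hprod : ∀ i, G * g i = Polynomial.C (G.coeff 2 * (g i).coeff 1) * Polynomial.X ^ 3 +
        Polynomial.C (G.coeff 2 * (g i).coeff 0 + G.coeff 1 * (g i).coeff 1) *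
          Polynomial.X ^ 2 +
        Polynomial.C (G.coeff 1 * (g i).coeff 0 + G.coeff 0 * (g i).coeff 1) *
          Polynomial.X + Polynomial.C (G.coeff 0 * (g i).coeff 0) := by
      intro i
      conv_lhs => rw [hGform, hgform i]
      simp only [map_mul, map_add]
      ring
    refine base_two S.d S.c S.b S.a
      (∑ i, MvPowerSeries.C ((g i).coeff 1) * MvPowerSeries.X i)
      (∑ i, MvPowerSeries.C ((g i).coeff 0) * MvPowerSeries.X i)
      (G.coeff 2) (G.coeff 1) (G.coeff 0) ?_ (hlin0 _) (hlin0 _) ?_ ?_ ?_ ?_ ?_ hH.symm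
      (by omega)
    · by_contra hcon
      push Not at hcon
      apply hG0
      rw [hGform, hcon.1, hcon.2.1, hcon.2.2]
      simp
    · left
      intro h2
      obtain ⟨i, hi⟩ := hgne
      apply hi
      have h3 := lc_eq_zero h2 i
      rw [hlc] at h3
      exact h3
    · refine mem_sq_of_lc (Ideal.sub_mem _ hdd (Ideal.mul_mem_left _ _ (hlin0 _))) fun i => ?_
      rw [hlcsub, hlcC, hlc, hlcd, hprod,
        (coeff_cubic _ _ _ _).1, sub_self]
    · refine mem_sq_of_lc (Ideal.sub_mem _ hc (Ideal.add_mem _ (Ideal.mul_mem_left _ _ (hlin0 _))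
        (Ideal.mul_mem_left _ _ (hlin0 _)))) fun i => ?_
      rw [hlcsub, hlcadd, hlcC, hlcC, hlc, hlc, hlcc, hprod,
        (coeff_cubic _ _ _ _).2.1, sub_self]
    · refine mem_sq_of_lc (Ideal.sub_mem _ hb (Ideal.add_mem _ (Ideal.mul_mem_left _ _ (hlin0 _))
        (Ideal.mul_mem_left _ _ (hlin0 _)))) fun i => ?_
      rw [hlcsub, hlcadd, hlcC, hlcC, hlc, hlc, hlcb, hprod,
        (coeff_cubic _ _ _ _).2.2.1, sub_self]
    · refine mem_sq_of_lc (Ideal.sub_mem _ ha (Ideal.mul_mem_left _ _ (hlin0 _))) fun i => ?_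
      rw [hlcsub, hlcC, hlc, hlca, hprod,
        (coeff_cubic _ _ _ _).2.2.2, sub_self]
  · -- `ℓ = 3`
    have hgform : ∀ i, g i = Polynomial.C ((g i).coeff 0) := fun i =>
      Polynomial.eq_C_of_natDegree_le_zero (hgdeg i)
    have hGform : G = Polynomial.C (G.coeff 3) * Polynomial.X ^ 3 +
        Polynomial.C (G.coeff 2) * Polynomial.X ^ 2 +
        Polynomial.C (G.coeff 1) * Polynomial.X + Polynomial.C (G.coeff 0) := by
      ext n
      simp only [Polynomial.coeff_add, Polynomial.coeff_C_mul, Polynomial.coeff_X_pow,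
        Polynomial.coeff_X, Polynomial.coeff_C]
      rcases Nat.lt_or_ge n 4 with hn | hn
      · interval_cases n <;> simp
      · rw [Polynomial.coeff_eq_zero_of_natDegree_lt (by omega), if_neg (by omega),
          if_neg (by omega), if_neg (by omega), if_neg (by omega)]
        simp
    have hprod : ∀ i m, (G * g i).coeff m = G.coeff m * (g i).coeff 0 := by
      intro i m
      conv_lhs => rw [hgform i, Polynomial.coeff_mul_C]
    refine base_three S.d S.c S.b S.a
      (∑ i, MvPowerSeries.C ((g i).coeff 0) * MvPowerSeries.X i)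
      (G.coeff 3) (G.coeff 2) (G.coeff 1) (G.coeff 0) ?_ (hlin0 _) ?_ ?_ ?_ ?_ ?_ hH.symm
      (by omega)
    · by_contra hcon
      push Not at hcon
      apply hG0
      rw [hGform, hcon.1, hcon.2.1, hcon.2.2.1, hcon.2.2.2]
      simp
    · intro h2
      obtain ⟨i, hi⟩ := hgne
      apply hi
      have h3 := lc_eq_zero h2 i
      rw [hlc] at h3
      exact h3
    · refine mem_sq_of_lc (Ideal.sub_mem _ hdd (Ideal.mul_mem_left _ _ (hlin0 _))) fun i => ?_
      rw [hlcsub, hlcC, hlc, hlcd, hprod, sub_self]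
    · refine mem_sq_of_lc (Ideal.sub_mem _ hc (Ideal.mul_mem_left _ _ (hlin0 _))) fun i => ?_
      rw [hlcsub, hlcC, hlc, hlcc, hprod, sub_self]
    · refine mem_sq_of_lc (Ideal.sub_mem _ hb (Ideal.mul_mem_left _ _ (hlin0 _))) fun i => ?_
      rw [hlcsub, hlcC, hlc, hlcb, hprod, sub_self]
    · refine mem_sq_of_lc (Ideal.sub_mem _ ha (Ideal.mul_mem_left _ _ (hlin0 _))) fun i => ?_
      rw [hlcsub, hlcC, hlc, hlca, hprod, sub_self]

end Pool.Agent.Lib_helper77.FB
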