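import Pool.Agent.Lib_helper77.FB.Arc

/-!
Transfer: if an element of `A[T]` vanishes to order `n` along sufficiently many arcs on which `F`
vanishes to order `n`, then some nonzero multiple by an element of `k[T]` lies in
`m ^ n A[T] + (F)`.
-/

namespace Pool.Agent.Lib_helper77.FB

theorem eval₂_mem_pow {R S κ : Type*} [CommRing R] [CommRing S] (f : R →+* S) (x : κ → S)
    (I : Ideal S) (hx : ∀ i, x i ∈ I) {Q : MvPolynomial κ R} {j : ℕ} (hQ : Q.IsHomogeneous j) :
    MvPolynomial.eval₂ f x Q ∈ I ^ j := by
  rw [MvPolynomial.eval₂_eq]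
  refine Ideal.sum_mem _ fun d hd => Ideal.mul_mem_left _ _ ?_
  have h1 : ∏ i ∈ d.support, x i ^ d i ∈ ∏ i ∈ d.support, I ^ d i :=
    Ideal.prod_mem_prod fun i _ => Ideal.pow_mem_pow (hx i) _
  rw [Finset.prod_pow_eq_pow_sum] at h1
  have h2 : d.degree = j := by
    have := hQ (MvPolynomial.mem_support_iff.mp hd)
    rw [Finsupp.degree_eq_weight_one]
    exact this
  rw [← h2]
  exact h1

theorem eval₂_scale {R S κ : Type*} [CommRing R] [CommRing S] (f : R →+* S) (t : S) (x : κ → S)
    {Q : MvPolynomial κ R} {j : ℕ} (hQ : Q.IsHomogeneous j) :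
    MvPolynomial.eval₂ f (fun i => t * x i) Q = t ^ j * MvPolynomial.eval₂ f x Q := by
  rw [MvPolynomial.eval₂_eq, MvPolynomial.eval₂_eq, Finset.mul_sum]
  refine Finset.sum_congr rfl fun d hd => ?_
  have h2 : d.degree = j := by
    have := hQ (MvPolynomial.mem_support_iff.mp hd)
    rw [Finsupp.degree_eq_weight_one]
    exact this
  have h3 : ∏ i ∈ d.support, (t * x i) ^ d i = t ^ j * ∏ i ∈ d.support, x i ^ d i := by
    simp_rw [mul_pow]
    rw [Finset.prod_mul_distrib, Finset.prod_pow_eq_pow_sum, ← h2]
    rfl
  rw [h3]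
  ring

/-- `m_A A[T]` -/
noncomputable abbrev mT (ι k : Type*) [Field k] : Ideal (Polynomial (MvPowerSeries ι k)) :=
  (CN.varIdeal ι k).map Polynomial.C

/-- the inclusion `k[T] → A[T]` -/
noncomputable abbrev inc (ι k : Type*) [Field k] :
    Polynomial k →+* Polynomial (MvPowerSeries ι k) := Polynomial.mapRingHom MvPowerSeries.C

/-- the value of a polynomial at the variables -/
noncomputable abbrev val {ι k : Type*} [Field k] {κ : Type*} (j : κ → ι) :
    MvPolynomial κ (Polynomial k) →+* Polynomial (MvPowerSeries ι k) :=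
  MvPolynomial.eval₂Hom (inc ι k) (fun i => Polynomial.C (MvPowerSeries.X (j i)))

theorem X_mem_mT {ι k : Type*} [Field k] (i : ι) :
    Polynomial.C (MvPowerSeries.X i) ∈ mT ι k :=
  Ideal.mem_map_of_mem _ (Ideal.subset_span ⟨i, rfl⟩)

theorem sub_constantCoeff_mem {ι k : Type*} [Finite ι] [Field k]
    (g : Polynomial (MvPowerSeries ι k)) :
    g - inc ι k (g.map MvPowerSeries.constantCoeff) ∈ mT ι k := by
  rw [Ideal.mem_map_C_iff]
  intro i
  rw [Polynomial.coeff_sub, Polynomial.coe_mapRingHom, Polynomial.coeff_map, Polynomial.coeff_map]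
  have h := (CN.mem_varIdeal_pow_iff 1 (g.coeff i -
    MvPowerSeries.C (MvPowerSeries.constantCoeff (g.coeff i)))).mpr (by
      intro d hd
      have hd0 : d = 0 := by
        rw [← Finsupp.degree_eq_zero_iff]
        omega
      subst hd0
      simp)
  rwa [pow_one] at h

/-- Elimination of one variable modulo `F`. -/
theorem elim {ι k : Type*} [Fintype ι] [DecidableEq ι] [Field k]
    (F : Polynomial (MvPowerSeries ι k)) (G : Polynomial k) (hG : G ≠ 0) (l : ι → Polynomial k)
    (p : ι) (hp : l p ≠ 0)
    (hF : F - inc ι k G * ∑ i, inc ι k (l i) * Polynomial.C (MvPowerSeries.X i) ∈ mT ι k ^ 2)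
    (j : ℕ) (g : Polynomial (MvPowerSeries ι k)) (hg : g ∈ mT ι k ^ j) :
    ∃ s : Polynomial k, s ≠ 0 ∧ ∃ Q : MvPolynomial {i // i ≠ p} (Polynomial k),
      Q.IsHomogeneous j ∧ ∃ f, inc ι k s * g - val Subtype.val Q - F * f ∈ mT ι k ^ (j + 1) := by
  classical
  -- closure under addition
  have hadd : ∀ (j : ℕ) (g1 g2 : Polynomial (MvPowerSeries ι k)),
      (∃ s : Polynomial k, s ≠ 0 ∧ ∃ Q : MvPolynomial {i // i ≠ p} (Polynomial k),
        Q.IsHomogeneous j ∧ ∃ f, inc ι k s * g1 - val Subtype.val Q - F * f ∈ mT ι k ^ (j + 1)) →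
      (∃ s : Polynomial k, s ≠ 0 ∧ ∃ Q : MvPolynomial {i // i ≠ p} (Polynomial k),
        Q.IsHomogeneous j ∧ ∃ f, inc ι k s * g2 - val Subtype.val Q - F * f ∈ mT ι k ^ (j + 1)) →
      (∃ s : Polynomial k, s ≠ 0 ∧ ∃ Q : MvPolynomial {i // i ≠ p} (Polynomial k),
        Q.IsHomogeneous j ∧
          ∃ f, inc ι k s * (g1 + g2) - val Subtype.val Q - F * f ∈ mT ι k ^ (j + 1)) := by
    rintro j g1 g2 ⟨s1, hs1, Q1, hQ1, f1, h1⟩ ⟨s2, hs2, Q2, hQ2, f2, h2⟩
    refine ⟨s1 * s2, mul_ne_zero hs1 hs2, MvPolynomial.C s2 * Q1 + MvPolynomial.C s1 * Q2,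
      (hQ1.C_mul s2).add (hQ2.C_mul s1), inc ι k s2 * f1 + inc ι k s1 * f2, ?_⟩
    have e1 : inc ι k (s1 * s2) * (g1 + g2) -
        val Subtype.val (MvPolynomial.C s2 * Q1 + MvPolynomial.C s1 * Q2) -
        F * (inc ι k s2 * f1 + inc ι k s1 * f2) =
        inc ι k s2 * (inc ι k s1 * g1 - val Subtype.val Q1 - F * f1) +
        inc ι k s1 * (inc ι k s2 * g2 - val Subtype.val Q2 - F * f2) := by
      rw [map_mul, map_add, map_mul, map_mul, MvPolynomial.coe_eval₂Hom, MvPolynomial.eval₂_C,
        MvPolynomial.eval₂_C]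
      ring
    rw [e1]
    exact Ideal.add_mem _ (Ideal.mul_mem_left _ _ h1) (Ideal.mul_mem_left _ _ h2)
  induction j generalizing g with
  | zero =>
    refine ⟨1, one_ne_zero, MvPolynomial.C (g.map MvPowerSeries.constantCoeff),
      MvPolynomial.isHomogeneous_C _ _, 0, ?_⟩
    rw [map_one, one_mul, MvPolynomial.coe_eval₂Hom, MvPolynomial.eval₂_C, mul_zero, sub_zero,
      zero_add, pow_one (mT ι k)]
    exact sub_constantCoeff_mem g
  | succ j ih =>
    rw [pow_succ (mT ι k) j] at hg
    refine Submodule.mul_induction_on hg ?_ (fun x y hx hy => hadd (j + 1) x y hx hy)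
    intro g' hg' y hy
    -- reduce to `y = C (X i)`
    have hy' : y ∈ Ideal.span (Set.range fun i : ι => Polynomial.C (MvPowerSeries.X (R := k) i)) := by
      have : Ideal.span (Set.range fun i : ι => Polynomial.C (MvPowerSeries.X (R := k) i)) = mT ι k := by
        rw [mT, CN.varIdeal, Ideal.map_span, ← Set.range_comp]
        rfl
      rw [this]; exact hy
    clear hy
    induction hy' using Submodule.span_induction generalizing g' with
    | zero =>
      refine ⟨1, one_ne_zero, 0, MvPolynomial.isHomogeneous_zero _ _ _, 0, ?_⟩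
      simp
    | add x y _ _ hx hy =>
      rw [mul_add]
      exact hadd (j + 1) _ _ (hx g' hg') (hy g' hg')
    | smul a x _ hx =>
      have : g' * (a • x) = (g' * a) * x := by rw [smul_eq_mul]; ring
      rw [this]
      exact hx (g' * a) (Ideal.mul_mem_right _ _ hg')
    | mem y hy =>
      obtain ⟨i, rfl⟩ := hy
      obtain ⟨s, hs, Q, hQ, f, hf⟩ := ih g' hg'
      by_cases hip : i = p
      · subst hip
        have hval : val Subtype.val Q ∈ mT ι k ^ j :=
          eval₂_mem_pow (inc ι k) _ (mT ι k) (fun i => X_mem_mT _) hQ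
        refine ⟨G * l i * s, mul_ne_zero (mul_ne_zero hG hp) hs,
          - ∑ i' : {i' // i' ≠ i}, MvPolynomial.C (G * l i') * (Q * MvPolynomial.X i'), ?_,
          val Subtype.val Q + inc ι k (G * l i) * f * Polynomial.C (MvPowerSeries.X i), ?_⟩
        · refine MvPolynomial.IsHomogeneous.neg ?_
          refine MvPolynomial.IsHomogeneous.sum _ _ _ fun i' _ => ?_
          exact (hQ.mul (MvPolynomial.isHomogeneous_X _ i')).C_mul _
        · have h1 := Fintype.sum_eq_add_sum_subtype_ne
            (fun i' => inc ι k (l i') * Polynomial.C (MvPowerSeries.X i')) i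
          have h2 : val Subtype.val (∑ i' : {i' // i' ≠ i},
              MvPolynomial.C (G * l i') * (Q * MvPolynomial.X i')) =
              inc ι k G * val Subtype.val Q *
                ∑ i' : {i' // i' ≠ i}, inc ι k (l i') * Polynomial.C (MvPowerSeries.X i'.1) := by
            rw [map_sum, Finset.mul_sum]
            refine Finset.sum_congr rfl fun i' _ => ?_
            rw [map_mul, map_mul]
            simp only [MvPolynomial.coe_eval₂Hom, MvPolynomial.eval₂_C, MvPolynomial.eval₂_X,
              map_mul]
            ring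
          have e1 : inc ι k (G * l i * s) * (g' * Polynomial.C (MvPowerSeries.X i)) -
              val Subtype.val (-∑ i' : {i' // i' ≠ i},
                MvPolynomial.C (G * l i') * (Q * MvPolynomial.X i')) -
              F * (val Subtype.val Q + inc ι k (G * l i) * f * Polynomial.C (MvPowerSeries.X i)) =
              inc ι k (G * l i) * ((inc ι k s * g' - val Subtype.val Q - F * f) *
                Polynomial.C (MvPowerSeries.X i)) -
              val Subtype.val Q * (F - inc ι k G *
                ∑ i, inc ι k (l i) * Polynomial.C (MvPowerSeries.X i)) := by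
            rw [map_neg, h2, h1]
            simp only [map_mul]
            ring
          rw [e1]
          refine Ideal.sub_mem _ (Ideal.mul_mem_left _ _ ?_) ?_
          · rw [pow_succ (mT ι k) (j + 1)]
            exact Ideal.mul_mem_mul hf (X_mem_mT i)
          · rw [show j + 1 + 1 = j + 2 by ring, pow_add (mT ι k) j 2]
            exact Ideal.mul_mem_mul hval hF
      · refine ⟨s, hs, Q * MvPolynomial.X ⟨i, hip⟩, hQ.mul (MvPolynomial.isHomogeneous_X _ _),
          f * Polynomial.C (MvPowerSeries.X i), ?_⟩
        have e1 : inc ι k s * (g' * Polynomial.C (MvPowerSeries.X i)) -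
            val Subtype.val (Q * MvPolynomial.X (⟨i, hip⟩ : {i // i ≠ p})) -
            F * (f * Polynomial.C (MvPowerSeries.X i)) =
            (inc ι k s * g' - val Subtype.val Q - F * f) * Polynomial.C (MvPowerSeries.X i) := by
          rw [map_mul]
          simp only [MvPolynomial.coe_eval₂Hom, MvPolynomial.eval₂_X]
          ring
        rw [e1, pow_succ (mT ι k) (j + 1)]
        exact Ideal.mul_mem_mul hf (X_mem_mT i)

theorem ev_mem {ι k K : Type*} [Field k] [Field K]
    (ev : MvPowerSeries ι k →+* PowerSeries K)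
    (hX : ∀ i, (PowerSeries.X : PowerSeries K) ∣ ev (MvPowerSeries.X i)) (T : K) (n : ℕ)
    (g : Polynomial (MvPowerSeries ι k)) (hg : g ∈ mT ι k ^ n) :
    (PowerSeries.X : PowerSeries K) ^ n ∣ Polynomial.eval₂ ev (PowerSeries.C T) g := by
  have h1 : (mT ι k).map (Polynomial.eval₂RingHom ev (PowerSeries.C T)) ≤
      Ideal.span {(PowerSeries.X : PowerSeries K)} := by
    rw [mT, Ideal.map_map, Ideal.map_span, Ideal.span_le]
    rintro _ ⟨_, ⟨i, rfl⟩, rfl⟩
    simp only [RingHom.comp_apply, Polynomial.coe_eval₂RingHom, Polynomial.eval₂_C]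
    exact Ideal.mem_span_singleton.mpr (hX i)
  have h2 : Polynomial.eval₂RingHom ev (PowerSeries.C T) g ∈
      (Ideal.span {(PowerSeries.X : PowerSeries K)}) ^ n := by
    have h3 := Ideal.mem_map_of_mem (Polynomial.eval₂RingHom ev (PowerSeries.C T)) hg
    rw [Ideal.map_pow] at h3
    exact Ideal.pow_right_mono h1 n h3
  rw [Ideal.span_singleton_pow, Ideal.mem_span_singleton] at h2
  exact h2

theorem transfer {k K : Type*} [Field k] [Infinite k] [Field K] [Algebra k K] {T : K}
    (hT : Transcendental k T) {ι : Type*} [Fintype ι] [DecidableEq ι]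
    (F r : Polynomial (MvPowerSeries ι k)) (G : Polynomial k) (hG : G ≠ 0)
    (l : ι → Polynomial k) (p : ι) (hp : l p ≠ 0)
    (hF : F - inc ι k G * ∑ i, inc ι k (l i) * Polynomial.C (MvPowerSeries.X i) ∈ mT ι k ^ 2)
    (D : MvPolynomial {i // i ≠ p} k) (hD : D ≠ 0) (n : ℕ)
    (harc : ∀ y : {i // i ≠ p} → k, MvPolynomial.eval y D ≠ 0 →
      ∃ ev : MvPowerSeries ι k →+* PowerSeries K,
        (∀ a, ev (MvPowerSeries.C a) = PowerSeries.C (algebraMap k K a)) ∧
        (∀ i, (PowerSeries.X : PowerSeries K) ∣ ev (MvPowerSeries.X i)) ∧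
        (∀ i : {i // i ≠ p}, PowerSeries.coeff 1 (ev (MvPowerSeries.X i.1)) =
          Polynomial.aeval T (l p) * algebraMap k K (y i)) ∧
        (PowerSeries.X : PowerSeries K) ^ n ∣ Polynomial.eval₂ ev (PowerSeries.C T) F ∧
        (PowerSeries.X : PowerSeries K) ^ n ∣ Polynomial.eval₂ ev (PowerSeries.C T) r) :
    ∃ s : Polynomial k, s ≠ 0 ∧ ∃ f, inc ι k s * r - F * f ∈ mT ι k ^ n := by
  classical
  have hinj : Function.Injective (Polynomial.aeval (R := k) T) :=
    transcendental_iff_injective.mp hT
  have key : ∀ j ≤ n, ∃ s : Polynomial k, s ≠ 0 ∧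
      ∃ f, inc ι k s * r - F * f ∈ mT ι k ^ j := by
    intro j
    induction j with
    | zero =>
      intro _
      refine ⟨1, one_ne_zero, 0, ?_⟩
      rw [pow_zero (mT ι k), Ideal.one_eq_top]
      trivial
    | succ j ih =>
      intro hj
      obtain ⟨s, hs, f, hf⟩ := ih (by omega)
      obtain ⟨s', hs', Q, hQ, f', hf'⟩ := elim F G hG l p hp hF j _ hf
      -- `Q` vanishes
      have hQ0 : ∀ y : {i // i ≠ p} → k, MvPolynomial.eval y D ≠ 0 →
          MvPolynomial.eval (fun i => Polynomial.C (y i)) Q = 0 := by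
        intro y hy
        obtain ⟨ev, hC, hX, h1, hFn, hrn⟩ := harc y hy
        have e1 := ev_mem ev hX T (j + 1) _ hf'
        have e2 : Polynomial.eval₂ ev (PowerSeries.C T) (val Subtype.val Q) =
            Polynomial.eval₂ ev (PowerSeries.C T) (inc ι k s') *
              (Polynomial.eval₂ ev (PowerSeries.C T) (inc ι k s) *
                Polynomial.eval₂ ev (PowerSeries.C T) r -
              Polynomial.eval₂ ev (PowerSeries.C T) F * Polynomial.eval₂ ev (PowerSeries.C T) f) -
            Polynomial.eval₂ ev (PowerSeries.C T) F * Polynomial.eval₂ ev (PowerSeries.C T) f' -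
            Polynomial.eval₂ ev (PowerSeries.C T)
              (inc ι k s' * (inc ι k s * r - F * f) - val Subtype.val Q - F * f') := by
          simp only [← Polynomial.coe_eval₂RingHom, map_sub, map_mul]
          ring
        have hFj : (PowerSeries.X : PowerSeries K) ^ (j + 1) ∣
            Polynomial.eval₂ ev (PowerSeries.C T) F := (pow_dvd_pow _ hj).trans hFn
        have hrj : (PowerSeries.X : PowerSeries K) ^ (j + 1) ∣
            Polynomial.eval₂ ev (PowerSeries.C T) r := (pow_dvd_pow _ hj).trans hrn
        have e3 : (PowerSeries.X : PowerSeries K) ^ (j + 1) ∣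
            Polynomial.eval₂ ev (PowerSeries.C T) (val Subtype.val Q) := by
          rw [e2]
          exact dvd_sub (dvd_sub (Dvd.dvd.mul_left (dvd_sub (Dvd.dvd.mul_left hrj _)
            (Dvd.dvd.mul_right hFj _)) _) (Dvd.dvd.mul_right hFj _)) e1
        -- the value of `val Q`
        choose x' hx' using hX
        set φ : Polynomial k →+* K := Polynomial.eval₂RingHom (algebraMap k K) T with hφ
        have e4 : Polynomial.eval₂ ev (PowerSeries.C T) (val Subtype.val Q) =
            PowerSeries.X ^ j * MvPolynomial.eval₂ ((PowerSeries.C).comp φ)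
              (fun i : {i // i ≠ p} => x' i.1) Q := by
          rw [← eval₂_scale _ _ _ hQ, ← Polynomial.coe_eval₂RingHom, MvPolynomial.coe_eval₂Hom,
            MvPolynomial.hom_eval₂]
          congr 1
          · ext a
            · simp [hC, hφ]
            · simp [hφ]
          · ext1 i
            simp [hx']
        have hc' : ∀ i : {i // i ≠ p}, PowerSeries.constantCoeff (x' i.1) =
            φ (l p * Polynomial.C (y i)) := by
          intro i
          have h2 := h1 i
          rw [hx'] at h2
          have h3 := PowerSeries.coeff_succ_X_mul 0 (x' i.1)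
          rw [zero_add] at h3
          rw [h3] at h2
          rw [← PowerSeries.coeff_zero_eq_constantCoeff_apply, h2, map_mul]
          simp [hφ, Polynomial.aeval_def]
        have e5 : φ (MvPolynomial.eval (fun i => l p * Polynomial.C (y i)) Q) = 0 := by
          rw [e4, pow_succ] at e3
          have h4 := (mul_dvd_mul_iff_left
            (pow_ne_zero j (PowerSeries.X_ne_zero (R := K)))).mp e3
          rw [PowerSeries.X_dvd_iff, MvPolynomial.hom_eval₂] at h4
          rw [← h4, MvPolynomial.eval, MvPolynomial.coe_eval₂Hom, MvPolynomial.hom_eval₂]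
          congr 1
          ext1 i
          exact (hc' i).symm
        have e6 : MvPolynomial.eval (fun i => l p * Polynomial.C (y i)) Q = 0 := by
          apply hinj
          rw [map_zero, Polynomial.aeval_def]
          exact e5
        have e7 := eval₂_scale (RingHom.id (Polynomial k)) (l p)
          (fun i => Polynomial.C (y i)) hQ
        have e8 : l p ^ j * MvPolynomial.eval (fun i => Polynomial.C (y i)) Q = 0 := by
          rw [← e6]
          exact e7.symm
        exact (mul_eq_zero.mp e8).resolve_left (pow_ne_zero _ hp)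
      have hQz : Q = 0 := by
        have hD' : D.map (Polynomial.C : k →+* Polynomial k) ≠ 0 := by
          intro h0
          exact hD (MvPolynomial.map_injective _ Polynomial.C_injective (by rw [h0, map_zero]))
        have h5 : Q * D.map (Polynomial.C : k →+* Polynomial k) = 0 := by
          refine MvPolynomial.funext_set
            (fun _ => Set.range (Polynomial.C : k → Polynomial k))
            (fun _ => Set.infinite_range_of_injective Polynomial.C_injective) ?_
          intro x hx
          have h6 : ∀ i, ∃ y : k, Polynomial.C y = x i := fun i => hx i (Set.mem_univ i)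
          choose y hy using h6
          obtain rfl : (fun i => Polynomial.C (y i)) = x := funext hy
          rw [map_zero, map_mul]
          by_cases hDy : MvPolynomial.eval y D = 0
          · have h7 : MvPolynomial.eval (fun i => Polynomial.C (y i))
                (D.map (Polynomial.C : k →+* Polynomial k)) =
                Polynomial.C (MvPolynomial.eval y D) := by
              rw [MvPolynomial.eval_map, MvPolynomial.eval, MvPolynomial.coe_eval₂Hom,
                MvPolynomial.hom_eval₂]
              rfl
            rw [h7, hDy, map_zero, mul_zero]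
          · rw [hQ0 y hDy, zero_mul]
        exact (mul_eq_zero.mp h5).resolve_right hD'
      rw [hQz, map_zero, sub_zero] at hf'
      refine ⟨s' * s, mul_ne_zero hs' hs, inc ι k s' * f + f', ?_⟩
      have e9 : inc ι k (s' * s) * r - F * (inc ι k s' * f + f') =
          inc ι k s' * (inc ι k s * r - F * f) - F * f' := by
        rw [map_mul]; ring
      rw [e9]
      exact hf'
  exact key n le_rfl

end Pool.Agent.Lib_helper77.FB
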