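import Pool.Agent.Lib_helper77.FB.Chart

/-!
The two-variable case of the degree bound.
-/

namespace Pool.Agent.Lib_helper77.FB

open PowerSeries

/-- The recurrences, packed in one polynomial identity. -/
theorem rec_identity {R : Type*} [CommRing R] (a b c e T : R) (h : ℕ → R) (N : ℕ)
    (hrec : ∀ j, 1 ≤ j → j ≤ N →
      e * h j + c * h (j + 1) + b * h (j + 2) + a * h (j + 3) = 0) :
    ∃ H : R, (a * T ^ 3 + b * T ^ 2 + c * T + e) * H =
      T ^ (N + 3) * ((h 1 * a) * T ^ 2 + (h 1 * b + h 2 * a) * T + (h 1 * c + h 2 * b + h 3 * a))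
        + ((e * h (N + 1) + c * h (N + 2) + b * h (N + 3)) * T ^ 2
        + (e * h (N + 2) + c * h (N + 3)) * T + e * h (N + 3)) := by
  induction N with
  | zero =>
    refine ⟨h 1 * T ^ 2 + h 2 * T + h 3, ?_⟩
    ring
  | succ N ih =>
    obtain ⟨H, hH⟩ := ih (fun j hj hjN => hrec j hj (by omega))
    refine ⟨T * H + h (N + 4), ?_⟩
    have h1 := hrec (N + 1) (by omega) le_rfl
    have e1 : N + 1 + 1 = N + 2 := rfl
    have e2 : N + 1 + 2 = N + 3 := rfl
    have e3 : N + 1 + 3 = N + 4 := rfl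
    rw [e1, e2, e3] at *
    linear_combination T * hH + T ^ 3 * h1

/-- `f` has no constant term and linear part `x X + z Z`. -/
def Lin {k : Type*} [Field k] (f : MvPowerSeries (Fin 2) k) (x z : k) : Prop :=
  ∃ p q r : MvPowerSeries (Fin 2) k,
    f = MvPowerSeries.C x * MvPowerSeries.X 0 + MvPowerSeries.C z * MvPowerSeries.X 1 +
      MvPowerSeries.X 0 ^ 2 * p + MvPowerSeries.X 0 * MvPowerSeries.X 1 * q +
      MvPowerSeries.X 1 ^ 2 * r

theorem alg_mem_OO {k K : Type*} [Field k] [Field K] [Algebra k K] (τ : K) (x : k) :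
    algebraMap k K x ∈ OO k τ := ⟨Polynomial.C x, by simp⟩

theorem self_mem_OO {k K : Type*} [Field k] [Field K] [Algebra k K] (τ : K) :
    τ ∈ OO k τ := ⟨Polynomial.X, by simp⟩

theorem two_var {k K : Type*} [Field k] [Field K] [Algebra k K] {T : K}
    (hT : Transcendental k T) {ev : MvPowerSeries (Fin 2) k →+* PowerSeries K}
    (hC : ∀ a, ev (MvPowerSeries.C a) = C (algebraMap k K a))
    (h1 : ev (MvPowerSeries.X 1) = X) {ε : k} (hε : ε = 0 ∨ ε = 1)
    (h0 : (X : PowerSeries K) ^ 2 ∣ ev (MvPowerSeries.X 0) + C (algebraMap k K ε * T) * X)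
    {a b c e : MvPowerSeries (Fin 2) k} {g3 g2 g1 g0 : k} (hεg : ε * g3 = 0)
    (hg : g3 ≠ 0 ∨ g2 ≠ 0 ∨ g1 ≠ 0 ∨ g0 ≠ 0)
    (ha : Lin a g3 (ε * g2)) (hb : Lin b g2 (ε * g1)) (hc : Lin c g1 (ε * g0)) (he : Lin e g0 0)
    {M : ℕ}
    (hF : (X : PowerSeries K) ^ M ∣ ev a * C T ^ 3 + ev b * C T ^ 2 + ev c * C T + ev e)
    {r H : PowerSeries K} (hrS : r ∈ SS ev T) {j : ℕ} {γ2 γ1 γ0 : MvPowerSeries (Fin 2) k}
    (hH : (ev a * C T ^ 3 + ev b * C T ^ 2 + ev c * C T + ev e) * H =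
      C T ^ (j + 2) * r + (ev γ2 * C T ^ 2 + ev γ1 * C T + ev γ0)) {n : ℕ} (hn : n < M)
    (hr : (X : PowerSeries K) ^ n ∣ r) (hrn : coeff n r ≠ 0) : j ≤ 2 * n := by
  classical
  have hT0 : T ≠ 0 := by
    rintro rfl
    exact hT isAlgebraic_zero
  set η := T⁻¹ with hη
  have hTη : T * η = 1 := mul_inv_cancel₀ hT0
  set x : PowerSeries K := ev (MvPowerSeries.X 0) with hx
  set ι := algebraMap k K with hι
  have hX0 : (X : PowerSeries K) ∣ x := by
    have h2 : (X : PowerSeries K) ∣ x + C (ι ε * T) * X :=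
      dvd_trans (dvd_pow_self X two_ne_zero) h0
    have h3 : x = (x + C (ι ε * T) * X) - C (ι ε * T) * X := by ring
    rw [h3]
    exact dvd_sub h2 (Dvd.intro_left _ rfl)
  have hX1 : (X : PowerSeries K) ∣ ev (MvPowerSeries.X 1) := by rw [h1]
  obtain ⟨ap, aq, ar, ha⟩ := ha
  obtain ⟨bp, bq, br, hb⟩ := hb
  obtain ⟨cp, cq, cr, hc⟩ := hc
  obtain ⟨ep, eq, er, he⟩ := he
  have ha' := congrArg ev ha
  have hb' := congrArg ev hb
  have hc' := congrArg ev hc
  have he' := congrArg ev he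
  simp only [map_add, map_mul, map_pow, hC, h1, ← hx, map_zero] at ha' hb' hc' he'
  have hεg' : C (ι ε) * C (ι g3) = (0 : PowerSeries K) := by
    rw [← map_mul, ← map_mul, hεg, map_zero, map_zero]
  have hCT : C T * C η = (1 : PowerSeries K) := by rw [← map_mul, hTη, map_one]
  -- the value `w` of the reversed quadratic polynomial
  set w : PowerSeries K := ev γ2 + ev γ1 * C η + ev γ0 * C η ^ 2 with hw
  have hwS : w ∈ SS ev η := by
    refine ⟨Polynomial.C γ2 + Polynomial.C γ1 * Polynomial.X +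
      Polynomial.C γ0 * Polynomial.X ^ 2, ?_⟩
    simp [hw]
  have hwr : C T ^ 2 * w = (ev a * C T ^ 3 + ev b * C T ^ 2 + ev c * C T + ev e) * H -
      C T ^ (j + 2) * r := by
    rw [hH, hw]
    linear_combination (C T * ev γ1 + ev γ0 * (C T * C η + 1)) * hCT
  have hwr2 : w = C η ^ 2 * ((ev a * C T ^ 3 + ev b * C T ^ 2 + ev c * C T + ev e) * H) -
      C T ^ j * r := by
    have e1 : w = C η ^ 2 * (C T ^ 2 * w) := by
      linear_combination (-(w * (C T * C η + 1))) * hCT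
    rw [e1, hwr]
    linear_combination (-(C T ^ j * r * (C T * C η + 1))) * hCT
  obtain ⟨F', hF'⟩ := hF
  have hwX : (X : PowerSeries K) ^ n ∣ w := by
    rw [hwr2, hF']
    refine dvd_sub ?_ (Dvd.dvd.mul_left hr _)
    refine Dvd.dvd.mul_left ?_ _
    rw [mul_assoc]
    exact Dvd.dvd.mul_right (pow_dvd_pow X hn.le) _
  have hwn : coeff n w = - (T ^ j * coeff n r) := by
    have e1 : C η ^ 2 * (X ^ M * F' * H) = X ^ M * (C η ^ 2 * F' * H) := by ring
    rw [hwr2, hF', map_sub, e1, (X_pow_dvd_iff.mp (Dvd.intro _ rfl)) n hn, zero_sub,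
      ← map_pow, coeff_C_mul]
  -- chart `T`
  have hTO := self_mem_OO (k := k) T
  have hηO := self_mem_OO (k := k) η
  have hxS : ∀ τ, x ∈ SS ev τ := fun τ => ev_mem_SS ev τ _
  have hZS : ∀ τ, (X : PowerSeries K) ∈ SS ev τ := fun τ => h1 ▸ ev_mem_SS ev τ _
  have hCTS : C T ∈ SS ev T := C_mem_SS hC hTO
  have hCηS : C η ∈ SS ev η := C_mem_SS hC hηO
  have hcomb : ∀ (τ : K), C τ ∈ SS ev τ → ∀ u v w y : MvPowerSeries (Fin 2) k,
      ev u * C τ ^ 3 + ev v * C τ ^ 2 + ev w * C τ + ev y ∈ SS ev τ := by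
    intro τ _ u v w y
    refine ⟨Polynomial.C u * Polynomial.X ^ 3 + Polynomial.C v * Polynomial.X ^ 2 +
      Polynomial.C w * Polynomial.X + Polynomial.C y, ?_⟩
    simp
  have hcombO : ∀ (τ : K) (u v w y : k),
      ι u * τ ^ 3 + ι v * τ ^ 2 + ι w * τ + ι y ∈ OO k τ := by
    intro τ u v w y
    refine ⟨Polynomial.C u * Polynomial.X ^ 3 + Polynomial.C v * Polynomial.X ^ 2 +
      Polynomial.C w * Polynomial.X + Polynomial.C y, ?_⟩
    simp [hι]
  have keyT := chart2 hC hX0 hX1 T (x + C (ι ε * T) * X) X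
    (p0 := 1) (q0 := -(ι ε * T)) (p1 := 0) (q1 := 1)
    (OO k T).one_mem ((OO k T).neg_mem ((OO k T).mul_mem (alg_mem_OO T ε) hTO))
    (OO k T).zero_mem (OO k T).one_mem
    (by rw [← hx, map_one, map_neg]; ring) (by rw [h1, map_zero, map_one]; ring)
    ((SS ev T).add_mem (hxS T) ((SS ev T).mul_mem
      (C_mem_SS hC ((OO k T).mul_mem (alg_mem_OO T ε) hTO)) (hZS T)))
    (hZS T) h0 1 one_ne_zero dvd_rfl coeff_one_X
    (hcombO T g3 g2 g1 g0) (hcomb T hCTS ap bp cp ep) (hcomb T hCTS aq bq cq eq)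
    (hcomb T hCTS ar br cr er) M
    (by
      refine ⟨F', ?_⟩
      rw [← hF', ← hx, h1]
      simp only [map_add, map_mul, map_pow]
      rw [ha', hb', hc', he']
      linear_combination (C T ^ 4 * X) * hεg')
    n hn r hrS hr
  obtain ⟨P, ⟨PT, rfl⟩, hP⟩ := keyT
  rw [Polynomial.coe_eval₂RingHom, one_pow, one_mul] at hP
  -- the polynomial `PT` is not zero
  have hG0 : ι g3 * T ^ 3 + ι g2 * T ^ 2 + ι g1 * T + ι g0 ≠ 0 := by
    intro h2
    have h3 : Polynomial.aeval (R := k) T (Polynomial.C g3 * Polynomial.X ^ 3 +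
        Polynomial.C g2 * Polynomial.X ^ 2 + Polynomial.C g1 * Polynomial.X +
        Polynomial.C g0) = 0 := by
      simpa using h2
    have h4 := (transcendental_iff.mp hT) _ h3
    have c3 := congrArg (fun q => Polynomial.coeff q 3) h4
    have c2 := congrArg (fun q => Polynomial.coeff q 2) h4
    have c1 := congrArg (fun q => Polynomial.coeff q 1) h4
    have c0 := congrArg (fun q => Polynomial.coeff q 0) h4
    simp [Polynomial.coeff_X, Polynomial.coeff_C] at c3 c2 c1 c0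
    simp [c3, c2, c1, c0] at hg
  have hPT : PT ≠ 0 := by
    rintro rfl
    rw [Polynomial.eval₂_zero, mul_eq_zero] at hP
    rcases hP with hP | hP
    · exact absurd hP (pow_ne_zero _ hG0)
    · exact hrn hP
  have hΦ : ev e * C η ^ 3 + ev c * C η ^ 2 + ev b * C η + ev a =
      C η ^ 3 * (ev a * C T ^ 3 + ev b * C T ^ 2 + ev c * C T + ev e) := by
    linear_combination (-(ev a * ((C T * C η) ^ 2 + C T * C η + 1)) -
      ev b * C η * (C T * C η + 1) - ev c * C η ^ 2) * hCT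
  have hΦM : (X : PowerSeries K) ^ M ∣ ev e * C η ^ 3 + ev c * C η ^ 2 + ev b * C η + ev a := by
    rw [hΦ, hF']
    exact Dvd.dvd.mul_left (Dvd.intro _ rfl) _
  rcases hε with rfl | rfl
  · -- `ε = 0`
    have hx2 : (X : PowerSeries K) ^ 2 ∣ x := by simpa using h0
    have keyη := chart2 hC hX0 hX1 η x X
      (p0 := 1) (q0 := 0) (p1 := 0) (q1 := 1)
      (OO k η).one_mem (OO k η).zero_mem (OO k η).zero_mem (OO k η).one_mem
      (by rw [← hx, map_one, map_zero]; ring) (by rw [h1, map_zero, map_one]; ring)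
      (hxS η) (hZS η) hx2 1 one_ne_zero dvd_rfl coeff_one_X
      (hcombO η g0 g1 g2 g3) (hcomb η hCηS ep cp bp ap) (hcomb η hCηS eq cq bq aq)
      (hcomb η hCηS er cr br ar) M
      (by
        refine hΦM.trans (Eq.dvd ?_)
        rw [← hx, h1]
        simp only [map_add, map_mul, map_pow]
        rw [ha', hb', hc', he']
        simp only [map_zero]
        ring)
      n hn w hwS hwX
    obtain ⟨Q, ⟨QT, rfl⟩, hQ⟩ := keyη
    rw [Polynomial.coe_eval₂RingHom, one_pow, one_mul, hwn] at hQ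
    have h5 := degree_le hT (P := PT) (Q := -QT) hPT (a := j) (b := 3 * (n / 2)) (by
      rw [Polynomial.eval₂_neg, ← hP, ← hQ]
      have e2 : ι g3 * T ^ 3 + ι g2 * T ^ 2 + ι g1 * T + ι g0 =
          T ^ 3 * (ι g0 * η ^ 3 + ι g1 * η ^ 2 + ι g2 * η + ι g3) := by
        linear_combination (-(ι g0 * ((T * η) ^ 2 + T * η + 1)) -
          ι g1 * T * (T * η + 1) - ι g2 * T ^ 2) * hTη
      rw [e2, mul_pow, pow_mul]
      ring)
    omega
  · -- `ε = 1`
    have hg3 : g3 = 0 := by simpa using hεg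
    subst hg3
    rw [map_one, one_mul] at h0
    have hξ : (X : PowerSeries K) ^ 2 ∣ C η * x + X := by
      have e3 : C η * x + X = C η * (x + C T * X) := by
        linear_combination (-X) * hCT
      rw [e3]
      exact Dvd.dvd.mul_left h0 _
    have hω : coeff 1 x = -T := by
      have h6 := (X_pow_dvd_iff.mp h0) 1 (by norm_num)
      rw [map_add, coeff_C_mul, coeff_one_X, mul_one] at h6
      linear_combination h6
    have keyη := chart2 hC hX0 hX1 η (C η * x + X) x
      (p0 := 0) (q0 := 1) (p1 := 1) (q1 := -η)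
      (OO k η).zero_mem (OO k η).one_mem (OO k η).one_mem ((OO k η).neg_mem hηO)
      (by rw [← hx, map_one, map_zero]; ring) (by rw [h1, map_one, map_neg]; ring)
      ((SS ev η).add_mem ((SS ev η).mul_mem hCηS (hxS η)) (hZS η)) (hxS η) hξ (-T)
      (neg_ne_zero.mpr hT0) hX0 hω
      (hcombO η 0 g0 g1 g2) (hcomb η hCηS ep cp bp ap) (hcomb η hCηS eq cq bq aq)
      (hcomb η hCηS er cr br ar) M
      (by
        refine hΦM.trans (Eq.dvd ?_)
        rw [← hx, h1]
        simp only [map_add, map_mul, map_pow]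
        rw [ha', hb', hc', he']
        simp only [map_zero, map_one]
        ring)
      n hn w hwS hwX
    obtain ⟨Q, ⟨QT, rfl⟩, hQ⟩ := keyη
    rw [Polynomial.coe_eval₂RingHom, hwn] at hQ
    have h5 := degree_le hT (P := PT) (Q := Polynomial.C ((-1) ^ (n + 1)) * QT) hPT (a := j)
      (b := 2 * (n / 2) + n) (by
      rw [Polynomial.eval₂_mul, Polynomial.eval₂_C, ← hP, ← hι]
      have e2 : ι 0 * T ^ 3 + ι g2 * T ^ 2 + ι g1 * T + ι g0 =
          T ^ 2 * (ι 0 * η ^ 3 + ι g0 * η ^ 2 + ι g1 * η + ι g2) := by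
        rw [map_zero]
        linear_combination (-(ι g0 * (T * η + 1)) - ι g1 * T) * hTη
      rw [e2, mul_pow, ← pow_mul]
      rw [map_pow, map_neg, map_one]
      have e4 : (-T) ^ n = (-1) ^ n * T ^ n := by rw [← mul_pow]; ring
      rw [e4] at hQ
      have e5 : ((-1 : K) ^ n) * (-1) ^ n = 1 := by rw [← mul_pow]; norm_num
      linear_combination (-(T ^ (2 * (n / 2)))) * hQ)
    omega

end Pool.Agent.Lib_helper77.FB
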